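import Mathlib
import Pool.Agent.W634.BQ.Stms

set_option autoImplicit false
open Filter Topology Finset

/-!
# Project BQ, part WM : vectors orthogonal to all eigenvectors are weakly mixing
-/

namespace Pool.Agent.W880.BQ
open Pool.Agent.W634.BQ

section WM

variable {H : Type} [NormedAddCommGroup H] [InnerProductSpace ℂ H]

/-- twisted sums -/
noncomputable def SS (U : H ≃ₗᵢ[ℂ] H) (f : H) (z : Circle) (K : ℕ) : H :=
  ∑ n ∈ range K, ((z ^ n : Circle) : ℂ) • ((U ^ n) f)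

theorem eigen_avg [CompleteSpace H] (U : H ≃ₗᵢ[ℂ] H) (f : H)
    (hf : ∀ (θ : Circle) (v : H), U v = (θ : ℂ) • v → inner ℂ v f = 0) (z : Circle) :
    Tendsto (fun K : ℕ => ‖SS U f z K‖ / K) atTop (𝓝 0) := by
  obtain ⟨V, hV⟩ : ∃ V : H →L[ℂ] H, ∀ x, V x = (z : ℂ) • U x :=
    ⟨(z : ℂ) • (U.toContinuousLinearEquiv : H →L[ℂ] H), fun x => rfl⟩
  have hV1 : ‖V‖ ≤ 1 := by
    refine V.opNorm_le_bound zero_le_one fun x => ?_
    rw [hV, norm_smul, Circle.norm_coe, U.norm_map]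
  have h1 := V.tendsto_birkhoffAverage_orthogonalProjection hV1 f
  have h2 : f ∈ (V.eqLocus (1 : H →L[ℂ] H))ᗮ := by
    rw [Submodule.mem_orthogonal]
    intro v hv
    have hv1 : V v = v := hv
    apply hf z⁻¹ v
    rw [hV] at hv1
    conv_rhs => rw [← hv1]
    rw [smul_smul, ← Circle.coe_mul, inv_mul_cancel, Circle.coe_one, one_smul]
  rw [Submodule.orthogonalProjectionOnto_apply_of_mem_orthogonal h2] at h1
  have h3 : ∀ k : ℕ, V^[k] f = ((z ^ k : Circle) : ℂ) • ((U ^ k) f) := by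
    intro k
    induction k with
    | zero => simp
    | succ k ih =>
      rw [Function.iterate_succ_apply', ih, map_smul, hV, smul_smul, pow_succ, pow_succ',
        Circle.coe_mul]
      rfl
  have h4 : ∀ K : ℕ, birkhoffAverage ℂ V _root_.id K f = ((K : ℂ)⁻¹) • SS U f z K := by
    intro K
    unfold birkhoffAverage birkhoffSum SS
    congr 1
    exact sum_congr rfl fun k _ => h3 k
  have h5 := h1.norm
  rw [ZeroMemClass.coe_zero, norm_zero] at h5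
  refine h5.congr fun K => ?_
  rw [h4, norm_smul, norm_inv, Complex.norm_natCast, div_eq_inv_mul]

theorem SS_add (U : H ≃ₗᵢ[ℂ] H) (f : H) (z : Circle) (a b : ℕ) :
    ‖SS U f z (a + b)‖ ≤ ‖SS U f z a‖ + ‖SS U f z b‖ := by
  have h1 : SS U f z (a + b) = SS U f z a + ((z ^ a : Circle) : ℂ) • ((U ^ a) (SS U f z b)) := by
    unfold SS
    rw [sum_range_add, map_sum, smul_sum]
    congr 1
    refine sum_congr rfl fun k _ => ?_
    rw [LinearIsometryEquiv.map_smul, smul_smul, ← Circle.coe_mul, ← pow_add, pow_add U]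
    rfl
  rw [h1]
  refine (norm_add_le _ _).trans ?_
  rw [norm_smul, Circle.norm_coe, one_mul, LinearIsometryEquiv.norm_map]

theorem SS_cont (U : H ≃ₗᵢ[ℂ] H) (f : H) (K : ℕ) :
    Continuous fun z : Circle => SS U f z K := by
  unfold SS
  exact continuous_finsetSum _ fun k _ =>
    (continuous_subtype_val.comp (continuous_pow k)).smul continuous_const

theorem SS_unif [CompleteSpace H] (U : H ≃ₗᵢ[ℂ] H) (f : H)
    (hf : ∀ (θ : Circle) (v : H), U v = (θ : ℂ) • v → inner ℂ v f = 0) (δ : ℝ) (hδ : 0 < δ) :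
    ∃ j0 : ℕ, ∀ j, j0 ≤ j → ∀ z : Circle, ‖SS U f z (2 ^ j)‖ ≤ δ * 2 ^ j := by
  have h1 : TendstoUniformly (fun (j : ℕ) (z : Circle) => ‖SS U f z (2 ^ j)‖ / 2 ^ j)
      (fun _ => (0 : ℝ)) atTop := by
    refine Antitone.tendstoUniformly_of_forall_tendsto (fun j => ?_) ?_ continuous_const
      fun z => ?_
    · exact (SS_cont U f _).norm.div_const _
    · refine antitone_nat_of_succ_le fun j z => ?_
      have h2 := SS_add U f z (2 ^ j) (2 ^ j)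
      have h3 : (2 : ℕ) ^ (j + 1) = 2 ^ j + 2 ^ j := by ring
      have h4 : (2 : ℝ) ^ (j + 1) = 2 ^ j + 2 ^ j := by ring
      have h5 : (0 : ℝ) < 2 ^ j := by positivity
      change ‖SS U f z (2 ^ (j + 1))‖ / 2 ^ (j + 1) ≤ ‖SS U f z (2 ^ j)‖ / 2 ^ j
      rw [h3, h4, div_le_div_iff₀ (by positivity) h5]
      nlinarith
    · have h2 := (eigen_avg U f hf z).comp (tendsto_pow_atTop_atTop_of_one_lt (one_lt_two : 1 < 2))
      refine h2.congr fun j => ?_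
      simp only [Function.comp]
      push_cast
      rfl
  rw [Metric.tendstoUniformly_iff] at h1
  obtain ⟨j0, hj0⟩ := eventually_atTop.1 (h1 δ hδ)
  refine ⟨j0, fun j hj z => ?_⟩
  have h2 := hj0 j hj z
  rw [Real.dist_eq, zero_sub, abs_neg, abs_of_nonneg (by positivity),
    div_lt_iff₀ (by positivity)] at h2
  exact h2.le

/-- the correlation sequence -/
noncomputable def cc (U : H ≃ₗᵢ[ℂ] H) (f : H) (k : ℤ) : ℂ := inner ℂ f ((U ^ k) f)

theorem inner_zpow (U : H ≃ₗᵢ[ℂ] H) (f : H) (m n : ℤ) :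
    inner ℂ ((U ^ m) f) ((U ^ n) f) = cc U f (n - m) := by
  have h1 : (U ^ n) f = (U ^ m) ((U ^ (n - m)) f) := by
    have h2 : U ^ n = U ^ m * U ^ (n - m) := by
      rw [← zpow_add]
      congr 1
      ring
    rw [h2]
    rfl
  rw [h1, LinearIsometryEquiv.inner_map_map]
  rfl

theorem cc_neg (U : H ≃ₗᵢ[ℂ] H) (f : H) (k : ℤ) :
    cc U f (-k) = (starRingEnd ℂ) (cc U f k) := by
  have h1 := inner_zpow U f k 0
  rw [zero_sub] at h1
  rw [← h1, zpow_zero]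
  unfold cc
  rw [inner_conj_symm]
  rfl

theorem cc_norm (U : H ≃ₗᵢ[ℂ] H) (f : H) (k : ℤ) : ‖cc U f k‖ ≤ ‖f‖ * ‖f‖ := by
  unfold cc
  refine (norm_inner_le_norm _ _).trans ?_
  rw [LinearIsometryEquiv.norm_map]

/-- difference of a pair -/
def ee (p : ℕ × ℕ) : ℤ := (p.2 : ℤ) - p.1

theorem SS_sq (U : H ≃ₗᵢ[ℂ] H) (f : H) (z : Circle) (K : ℕ) :
    (((‖SS U f z K‖ ^ 2 : ℝ)) : ℂ) =
      ∑ y ∈ range K ×ˢ range K, (z : ℂ) ^ (ee y) * cc U f (ee y) := by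
  have h1 : (((‖SS U f z K‖ ^ 2 : ℝ)) : ℂ) = inner ℂ (SS U f z K) (SS U f z K) := by
    rw [inner_self_eq_norm_sq_to_K]
    push_cast
    rfl
  rw [h1, sum_product]
  unfold SS
  rw [sum_inner]
  refine sum_congr rfl fun p _ => ?_
  rw [inner_sum]
  refine sum_congr rfl fun q _ => ?_
  rw [inner_smul_left, inner_smul_right]
  have h2 := inner_zpow U f p q
  rw [zpow_natCast, zpow_natCast] at h2
  rw [h2, ← mul_assoc, ← Circle.coe_inv_eq_conj]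
  unfold ee
  congr 1
  rw [← Circle.coe_mul, ← Circle.coe_zpow]
  congr 1
  rw [zpow_sub, zpow_natCast, zpow_natCast, mul_comm]

theorem root_sum (R : ℕ) (hR : 0 < R) : ∃ ζ : Circle, ∀ k : ℤ, |k| < R →
    ∑ r ∈ range R, ((ζ ^ r : Circle) : ℂ) ^ k = if k = 0 then (R : ℂ) else 0 := by
  refine ⟨Circle.exp (2 * Real.pi / R), fun k hk => ?_⟩
  obtain ⟨ζ, hζ⟩ : ∃ ζ : ℂ, ζ = (Circle.exp (2 * Real.pi / R) : ℂ) := ⟨_, rfl⟩
  have h0 : IsPrimitiveRoot ζ R := by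
    have h1 := Complex.isPrimitiveRoot_exp R hR.ne'
    rw [hζ, Circle.coe_exp]
    have h2 : ((2 * Real.pi / R : ℝ) : ℂ) * Complex.I = 2 * Real.pi * Complex.I / R := by
      push_cast
      ring
    rw [h2]
    exact h1
  split_ifs with h
  · subst h
    simp
  · have h1 : ∀ r : ℕ, ((Circle.exp (2 * Real.pi / R) ^ r : Circle) : ℂ) ^ k = (ζ ^ k) ^ r := by
      intro r
      rw [Circle.coe_pow, ← hζ, ← zpow_natCast, ← zpow_mul, ← zpow_natCast, ← zpow_mul, mul_comm]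
    rw [sum_congr rfl fun r _ => h1 r]
    have h2 : ζ ^ k ≠ 1 := by
      intro h3
      have h4 := (h0.zpow_eq_one_iff_dvd k).1 h3
      obtain ⟨c, hc⟩ := h4
      have h5 : c ≠ 0 := by
        rintro rfl
        exact h (by rw [hc, mul_zero])
      have h6 : 1 ≤ |c| := Int.one_le_abs h5
      rw [hc, abs_mul, Nat.abs_cast] at hk
      have h7 : (0 : ℤ) < R := by exact_mod_cast hR
      nlinarith
    have h3 := mul_neg_geom_sum (ζ ^ k) R
    have h4 : (ζ ^ k) ^ R = 1 := by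
      rw [← zpow_natCast, ← zpow_mul, mul_comm, zpow_mul, zpow_natCast, h0.pow_eq_one, one_zpow]
    rw [h4, sub_self] at h3
    rcases mul_eq_zero.1 h3 with h5 | h5
    · exact absurd (sub_eq_zero.1 h5).symm h2
    · exact h5

theorem key_id (U : H ≃ₗᵢ[ℂ] H) (f : H) (J K R : ℕ) (ζ : Circle)
    (hζ : ∀ k : ℤ, |k| < R →
      ∑ r ∈ range R, ((ζ ^ r : Circle) : ℂ) ^ k = if k = 0 then (R : ℂ) else 0)
    (hJK : J + K ≤ R) :
    (((∑ r ∈ range R, ‖SS U f (ζ ^ r) J‖ ^ 2 * ‖SS U f (ζ ^ r) K‖ ^ 2 : ℝ)) : ℂ) =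
      (((∑ x ∈ range J ×ˢ range J, ∑ y ∈ range K ×ˢ range K,
        (if ee x + ee y = 0 then (R : ℝ) * ‖cc U f (ee y)‖ ^ 2 else 0) : ℝ)) : ℂ) := by
  rw [Complex.ofReal_sum]
  have h1 : ∀ r ∈ range R, (((‖SS U f (ζ ^ r) J‖ ^ 2 * ‖SS U f (ζ ^ r) K‖ ^ 2 : ℝ)) : ℂ) =
      ∑ x ∈ range J ×ˢ range J, ∑ y ∈ range K ×ˢ range K,
        ((ζ ^ r : Circle) : ℂ) ^ (ee x + ee y) * (cc U f (ee x) * cc U f (ee y)) := by
    intro r _
    rw [Complex.ofReal_mul, SS_sq, SS_sq, sum_mul_sum]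
    refine sum_congr rfl fun x _ => sum_congr rfl fun y _ => ?_
    rw [zpow_add₀ (Circle.coe_ne_zero _)]
    ring
  rw [sum_congr rfl h1, sum_comm, Complex.ofReal_sum]
  refine sum_congr rfl fun x hx => ?_
  rw [sum_comm, Complex.ofReal_sum]
  refine sum_congr rfl fun y hy => ?_
  rw [← sum_mul]
  have h2 : |ee x + ee y| < R := by
    rw [mem_product, mem_range, mem_range] at hx hy
    unfold ee
    rw [abs_lt]
    constructor <;> omega
  rw [hζ _ h2]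
  split_ifs with h
  · have h3 : ee x = -ee y := by linarith
    rw [h3, cc_neg, Complex.conj_mul']
    push_cast
    rfl
  · simp

theorem cnt_le (J : ℕ) (d : ℤ) :
    ∑ x ∈ range J ×ˢ range J, (if ee x + d = 0 then (1 : ℝ) else 0) ≤ J := by
  rw [sum_product]
  have h1 : ∀ n ∈ range J, ∑ m ∈ range J, (if ee (n, m) + d = 0 then (1 : ℝ) else 0) ≤ 1 := by
    intro n _
    rw [sum_ite, sum_const_zero, add_zero, sum_const, nsmul_eq_mul, mul_one]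
    have h2 : #{m ∈ range J | ee (n, m) + d = 0} ≤ 1 := by
      rw [card_le_one]
      intro a ha b hb
      rw [mem_filter] at ha hb
      have h3 := ha.2
      have h4 := hb.2
      unfold ee at h3 h4
      simp only at h3 h4
      omega
    exact_mod_cast h2
  refine (sum_le_sum h1).trans ?_
  simp

theorem cnt_ge (K : ℕ) (y : ℕ × ℕ) (hy : y ∈ range K ×ˢ range K) :
    (K : ℝ) ≤ ∑ x ∈ range (2 * K) ×ˢ range (2 * K), (if ee x + ee y = 0 then (1 : ℝ) else 0) := by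
  rw [mem_product, mem_range, mem_range] at hy
  rw [sum_product]
  have h1 : ∑ n ∈ Ico y.2 (y.2 + K), (1 : ℝ) ≤
      ∑ n ∈ Ico y.2 (y.2 + K), ∑ m ∈ range (2 * K),
        (if ee (n, m) + ee y = 0 then (1 : ℝ) else 0) := by
    refine sum_le_sum fun n hn => ?_
    rw [mem_Ico] at hn
    have h2 : n - y.2 + y.1 ∈ range (2 * K) := by
      rw [mem_range]
      omega
    have h3 : ee (n, n - y.2 + y.1) + ee y = 0 := by
      unfold ee
      simp only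
      omega
    have h4 := single_le_sum (f := fun m => if ee (n, m) + ee y = 0 then (1 : ℝ) else 0)
      (fun m _ => by split_ifs <;> norm_num) h2
    simp only [h3, if_true] at h4
    exact h4
  have h2 : ∑ n ∈ Ico y.2 (y.2 + K), (1 : ℝ) = K := by simp
  rw [h2] at h1
  refine h1.trans (sum_le_sum_of_subset_of_nonneg ?_ ?_)
  · intro n hn
    rw [mem_Ico] at hn
    rw [mem_range]
    omega
  · intro n _ _
    exact sum_nonneg fun m _ => by split_ifs <;> norm_num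

theorem cc_zero (U : H ≃ₗᵢ[ℂ] H) (f : H) : ‖cc U f 0‖ = ‖f‖ ^ 2 := by
  have h1 : cc U f 0 = inner ℂ f f := by
    unfold cc
    rw [zpow_zero]
    rfl
  rw [h1, inner_self_eq_norm_sq_to_K]
  simp

theorem sq_bound (U : H ≃ₗᵢ[ℂ] H) (f : H) (K : ℕ) (hK : 0 < K) (M : ℝ)
    (hM : ∀ z, ‖SS U f z K‖ ≤ M) :
    ∑ y ∈ range K ×ˢ range K, ‖cc U f (ee y)‖ ^ 2 ≤ 2 * M ^ 2 * ‖f‖ ^ 2 := by
  rcases eq_or_ne f 0 with hf | hf
  · have h1 : ∀ y ∈ range K ×ˢ range K, ‖cc U f (ee y)‖ ^ 2 = 0 := by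
      intro y _
      have := cc_norm U f (ee y)
      rw [hf, norm_zero, mul_zero] at this
      rw [hf, norm_le_zero_iff.1 this]
      simp
    rw [sum_congr rfl h1, sum_const_zero]
    positivity
  have hf2 : 0 < ‖f‖ ^ 2 := by positivity
  obtain ⟨ζ, hζ⟩ := root_sum (3 * K) (by omega)
  have hR : (0 : ℝ) < (3 * K : ℕ) := by
    have : 0 < 3 * K := by omega
    exact_mod_cast this
  have hKr : (0 : ℝ) < K := by exact_mod_cast hK
  have h1 := Complex.ofReal_injective (key_id U f (2 * K) K (3 * K) ζ hζ (by omega))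
  have h2 := Complex.ofReal_injective (key_id U f (2 * K) 1 (3 * K) ζ hζ (by omega))
  -- the second identity
  have h3 : ∑ r ∈ range (3 * K), ‖SS U f (ζ ^ r) (2 * K)‖ ^ 2 * ‖f‖ ^ 2 ≤
      (3 * K : ℕ) * (2 * K) * (‖f‖ ^ 2) ^ 2 := by
    have h4 : ∀ z, SS U f z 1 = f := by
      intro z
      unfold SS
      simp
    simp only [h4] at h2
    rw [h2]
    have h5 : ∀ x ∈ range (2 * K) ×ˢ range (2 * K), ∑ y ∈ range 1 ×ˢ range 1,
        (if ee x + ee y = 0 then (((3 * K : ℕ)) : ℝ) * ‖cc U f (ee y)‖ ^ 2 else 0) =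
        (if ee x + 0 = 0 then (1 : ℝ) else 0) * (((3 * K : ℕ)) * (‖f‖ ^ 2) ^ 2) := by
      intro x _
      rw [sum_product, range_one, sum_singleton, sum_singleton]
      have h6 : ee (0, 0) = 0 := by
        unfold ee
        simp
      rw [h6, cc_zero]
      split_ifs <;> ring
    rw [sum_congr rfl h5, ← sum_mul]
    have h6 := cnt_le (2 * K) 0
    have h7 : (((2 * K : ℕ)) : ℝ) = 2 * K := by push_cast; ring
    rw [h7] at h6
    calc _ ≤ (2 * (K : ℝ)) * (((3 * K : ℕ)) * (‖f‖ ^ 2) ^ 2) :=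
          mul_le_mul_of_nonneg_right h6 (by positivity)
      _ = _ := by ring
  have h3' : ∑ r ∈ range (3 * K), ‖SS U f (ζ ^ r) (2 * K)‖ ^ 2 ≤
      (3 * K : ℕ) * (2 * K) * ‖f‖ ^ 2 := by
    rw [← sum_mul] at h3
    refine le_of_mul_le_mul_right ?_ hf2
    calc _ ≤ _ := h3
      _ = _ := by ring
  -- the first identity
  have h4 : (3 * K : ℕ) * K * ∑ y ∈ range K ×ˢ range K, ‖cc U f (ee y)‖ ^ 2 ≤
      ∑ r ∈ range (3 * K), ‖SS U f (ζ ^ r) (2 * K)‖ ^ 2 * ‖SS U f (ζ ^ r) K‖ ^ 2 := by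
    rw [h1, sum_comm, mul_sum]
    refine sum_le_sum fun y hy => ?_
    have h5 := cnt_ge K y hy
    have h6 : ∑ x ∈ range (2 * K) ×ˢ range (2 * K),
        (if ee x + ee y = 0 then (((3 * K : ℕ)) : ℝ) * ‖cc U f (ee y)‖ ^ 2 else 0) =
        (∑ x ∈ range (2 * K) ×ˢ range (2 * K), (if ee x + ee y = 0 then (1 : ℝ) else 0)) *
          ((((3 * K : ℕ)) : ℝ) * ‖cc U f (ee y)‖ ^ 2) := by
      rw [sum_mul]
      refine sum_congr rfl fun x _ => ?_
      split_ifs <;> ring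
    rw [h6]
    calc _ = (K : ℝ) * ((((3 * K : ℕ)) : ℝ) * ‖cc U f (ee y)‖ ^ 2) := by ring
      _ ≤ _ := mul_le_mul_of_nonneg_right h5 (by positivity)
  have h5 : ∑ r ∈ range (3 * K), ‖SS U f (ζ ^ r) (2 * K)‖ ^ 2 * ‖SS U f (ζ ^ r) K‖ ^ 2 ≤
      ((3 * K : ℕ) * (2 * K) * ‖f‖ ^ 2) * M ^ 2 := by
    calc _ ≤ ∑ r ∈ range (3 * K), ‖SS U f (ζ ^ r) (2 * K)‖ ^ 2 * M ^ 2 := by
          refine sum_le_sum fun r _ => mul_le_mul_of_nonneg_left ?_ (by positivity)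
          exact pow_le_pow_left₀ (norm_nonneg _) (hM _) 2
      _ = (∑ r ∈ range (3 * K), ‖SS U f (ζ ^ r) (2 * K)‖ ^ 2) * M ^ 2 := by rw [sum_mul]
      _ ≤ _ := mul_le_mul_of_nonneg_right h3' (by positivity)
  have h6 := h4.trans h5
  have h7 : (0 : ℝ) < (3 * K : ℕ) * K := by positivity
  refine le_of_mul_le_mul_left ?_ h7
  calc _ ≤ _ := h6
    _ = _ := by ring

theorem cc_avg [CompleteSpace H] (U : H ≃ₗᵢ[ℂ] H) (f : H)
    (hf : ∀ (θ : Circle) (v : H), U v = (θ : ℂ) • v → inner ℂ v f = 0) (δ : ℝ) (hδ : 0 < δ) :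
    ∃ L0 : ℕ, ∀ L, L0 ≤ L →
      ∑ y ∈ range L ×ˢ range L, ‖cc U f (ee y)‖ ^ 2 ≤ 8 * δ ^ 2 * ‖f‖ ^ 2 * (L : ℝ) ^ 2 := by
  obtain ⟨j0, hj0⟩ := SS_unif U f hf δ hδ
  refine ⟨2 ^ j0, fun L hL => ?_⟩
  have hL0 : L ≠ 0 := by
    have : 0 < 2 ^ j0 := by positivity
    omega
  have h1 : j0 ≤ Nat.log 2 L := Nat.le_log_of_pow_le one_lt_two hL
  have h2 : 2 ^ Nat.log 2 L ≤ L := Nat.pow_log_le_self 2 hL0
  have h3 : L < 2 ^ (Nat.log 2 L + 1) := Nat.lt_pow_succ_log_self one_lt_two L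
  have h4 := sq_bound U f (2 ^ (Nat.log 2 L + 1)) (by positivity) (δ * 2 ^ (Nat.log 2 L + 1))
    (hj0 _ (by omega))
  have h5 : (2 : ℝ) ^ Nat.log 2 L ≤ L := by exact_mod_cast h2
  calc _ ≤ ∑ y ∈ range (2 ^ (Nat.log 2 L + 1)) ×ˢ range (2 ^ (Nat.log 2 L + 1)),
        ‖cc U f (ee y)‖ ^ 2 := by
        refine sum_le_sum_of_subset_of_nonneg ?_ fun _ _ _ => by positivity
        exact product_subset_product (range_subset_range.2 h3.le) (range_subset_range.2 h3.le)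
    _ ≤ _ := h4
    _ = 8 * δ ^ 2 * ‖f‖ ^ 2 * ((2 : ℝ) ^ Nat.log 2 L) ^ 2 := by ring
    _ ≤ _ := by gcongr

end WM

theorem wm : S_wm := by
  intro H _ _ _ U f hf ε hε
  obtain ⟨δ, hδ, hδ2⟩ : ∃ δ : ℝ, 0 < δ ∧ 8 * δ ^ 2 * ‖f‖ ^ 2 * (‖f‖ ^ 2) ^ 2 ≤ ε ^ 4 := by
    refine ⟨ε ^ 2 / (3 * (‖f‖ ^ 3 + 1)), by positivity, ?_⟩
    have h1 : 0 ≤ ‖f‖ ^ 3 := by positivity
    have h2 : 8 * (ε ^ 2 / (3 * (‖f‖ ^ 3 + 1))) ^ 2 * ‖f‖ ^ 2 * (‖f‖ ^ 2) ^ 2 =
        (8 * (‖f‖ ^ 3) ^ 2 / (9 * (‖f‖ ^ 3 + 1) ^ 2)) * ε ^ 4 := by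
      field_simp
      ring
    rw [h2]
    have h3 : 8 * (‖f‖ ^ 3) ^ 2 / (9 * (‖f‖ ^ 3 + 1) ^ 2) ≤ 1 := by
      rw [div_le_one (by positivity)]
      nlinarith
    have h4 : 0 ≤ ε ^ 4 := by positivity
    nlinarith
  obtain ⟨L0, hL0⟩ := cc_avg U f hf δ hδ
  refine ⟨L0, fun L hL N => ?_⟩
  have hT := hL0 L hL
  obtain ⟨a, ha⟩ : ∃ a : ℕ → ℂ, ∀ n, a n = inner ℂ ((U ^ (N + n)) f) f := ⟨_, fun _ => rfl⟩
  have hu : ∀ n, ∃ u : ℂ, ‖u‖ ≤ 1 ∧ (starRingEnd ℂ) u * a n = ‖a n‖ := by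
    intro n
    refine ⟨a n / ‖a n‖, ?_, ?_⟩
    · rw [norm_div, Complex.norm_real, norm_norm]
      exact div_self_le_one _
    · rw [map_div₀, Complex.conj_ofReal, div_mul_eq_mul_div, Complex.conj_mul']
      rcases eq_or_ne (a n) 0 with h | h
      · simp [h]
      · have : (‖a n‖ : ℂ) ≠ 0 := by
          rw [Complex.ofReal_ne_zero]
          exact norm_ne_zero_iff.2 h
        field_simp
  choose u hu1 hu2 using hu
  obtain ⟨v, hv⟩ : ∃ v : H, v = ∑ n ∈ range L, u n • ((U ^ (N + n)) f) := ⟨_, rfl⟩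
  obtain ⟨S, hS⟩ : ∃ S : ℝ, S = ∑ n ∈ range L, ‖inner ℂ ((U ^ (N + n)) f) f‖ := ⟨_, rfl⟩
  have h1 : ((S : ℝ) : ℂ) = inner ℂ v f := by
    rw [hv, hS, sum_inner, Complex.ofReal_sum]
    refine sum_congr rfl fun n _ => ?_
    rw [inner_smul_left, ← ha, hu2]
  have hS0 : 0 ≤ S := by
    rw [hS]
    exact sum_nonneg fun _ _ => norm_nonneg _
  have h2 : S ≤ ‖v‖ * ‖f‖ := by
    have h3 := norm_inner_le_norm (𝕜 := ℂ) v f
    rw [← h1, Complex.norm_real, Real.norm_eq_abs, abs_of_nonneg hS0] at h3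
    exact h3
  obtain ⟨T, hTd⟩ : ∃ T : ℝ, T = ∑ y ∈ range L ×ˢ range L, ‖cc U f (ee y)‖ := ⟨_, rfl⟩
  have h3 : ‖v‖ ^ 2 ≤ T := by
    have h4 : ‖v‖ ^ 2 = ‖(inner ℂ v v : ℂ)‖ := by
      rw [inner_self_eq_norm_sq_to_K]
      simp
    rw [h4, hTd, sum_product]
    conv_lhs => rw [hv]
    rw [sum_inner]
    refine (norm_sum_le _ _).trans (sum_le_sum fun n _ => ?_)
    rw [inner_sum]
    refine (norm_sum_le _ _).trans (sum_le_sum fun m _ => ?_)
    rw [inner_smul_left, inner_smul_right, inner_zpow, norm_mul, norm_mul, RCLike.norm_conj]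
    have h5 : (N + (m : ℤ)) - (N + (n : ℤ)) = ee (n, m) := by
      unfold ee
      simp only
      ring
    rw [h5]
    have h6 : 0 ≤ ‖cc U f (ee (n, m))‖ := norm_nonneg _
    have h7 := hu1 n
    have h8 := hu1 m
    have h9 : 0 ≤ ‖u m‖ := norm_nonneg _
    have h10 : 0 ≤ ‖u n‖ := norm_nonneg _
    calc _ ≤ 1 * (1 * ‖cc U f (ee (n, m))‖) := by gcongr
      _ = _ := by ring
  have hT0 : 0 ≤ T := by
    rw [hTd]
    exact sum_nonneg fun _ _ => norm_nonneg _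
  have h4 : T ^ 2 ≤ (L : ℝ) ^ 2 * (8 * δ ^ 2 * ‖f‖ ^ 2 * (L : ℝ) ^ 2) := by
    have h5 := sq_sum_le_card_mul_sum_sq (s := range L ×ˢ range L)
      (f := fun y => ‖cc U f (ee y)‖)
    rw [card_product, card_range] at h5
    rw [hTd]
    refine h5.trans ?_
    have h6 : (((L * L : ℕ)) : ℝ) = (L : ℝ) ^ 2 := by
      push_cast
      ring
    rw [h6]
    exact mul_le_mul_of_nonneg_left hT (by positivity)
  have h5 : S ^ 2 ≤ T * ‖f‖ ^ 2 := by
    calc S ^ 2 ≤ (‖v‖ * ‖f‖) ^ 2 := pow_le_pow_left₀ hS0 h2 2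
      _ = ‖v‖ ^ 2 * ‖f‖ ^ 2 := by ring
      _ ≤ _ := mul_le_mul_of_nonneg_right h3 (by positivity)
  have h6 : S ^ 4 ≤ (ε * L) ^ 4 := by
    calc S ^ 4 = (S ^ 2) ^ 2 := by ring
      _ ≤ (T * ‖f‖ ^ 2) ^ 2 := pow_le_pow_left₀ (by positivity) h5 2
      _ = T ^ 2 * (‖f‖ ^ 2) ^ 2 := by ring
      _ ≤ ((L : ℝ) ^ 2 * (8 * δ ^ 2 * ‖f‖ ^ 2 * (L : ℝ) ^ 2)) * (‖f‖ ^ 2) ^ 2 :=
          mul_le_mul_of_nonneg_right h4 (by positivity)
      _ = (8 * δ ^ 2 * ‖f‖ ^ 2 * (‖f‖ ^ 2) ^ 2) * (L : ℝ) ^ 4 := by ring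
      _ ≤ ε ^ 4 * (L : ℝ) ^ 4 := mul_le_mul_of_nonneg_right hδ2 (by positivity)
      _ = _ := by ring
  rw [← hS]
  exact (pow_le_pow_iff_left₀ hS0 (by positivity) (by norm_num)).1 h6

end Pool.Agent.W880.BQ
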