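import Pool.Agent.W634.BQ.Stms

/-! BQ-EXT: extreme invariant means carried by a set of ultrafilters (MP_31db24_co). -/

set_option autoImplicit false

open MeasureTheory Filter Topology Finset
open scoped BoundedContinuousFunction

namespace Pool.Agent.W880.BQ

open Pool.Agent.W634.BQ

/-- bounded functions have limits along ultrafilters -/
theorem ex_lim {X : Type} (u : Ultrafilter X) (f : X → ℝ) (C : ℝ) (h : ∀ x, |f x| ≤ C) :
    ∃ y, |y| ≤ C ∧ Tendsto f u (𝓝 y) := by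
  have hc : IsCompact (Set.Icc (-C) C) := isCompact_Icc
  have h1 : ((u.map f : Ultrafilter ℝ) : Filter ℝ) ≤ 𝓟 (Set.Icc (-C) C) := by
    rw [Ultrafilter.coe_map, Filter.le_principal_iff, Filter.mem_map]
    exact Filter.univ_mem' fun x => abs_le.1 (h x)
  obtain ⟨y, hy, hy2⟩ := hc.ultrafilter_le_nhds _ h1
  exact ⟨y, abs_le.2 hy, hy2⟩

/-- the convex set -/
def KK (M : Set (Ultrafilter ℤ)) : Set ((ℤ →ᵇ ℝ) → ℝ) :=
  {φ | (∀ f g, φ (f + g) = φ f + φ g) ∧ (∀ (c : ℝ) f, φ (c • f) = c * φ f) ∧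
    (∀ f : ℤ →ᵇ ℝ, (∀ n, 0 ≤ f n) → 0 ≤ φ f) ∧ φ 1 = 1 ∧ (∀ f, φ (sh 1 f) = φ f) ∧
    ∀ A : Set ℤ, (∀ u ∈ M, A ∉ u) → φ (ind A) = 0}

/-- positive functionals are bounded -/
theorem pos_bound (φ : (ℤ →ᵇ ℝ) → ℝ) (ha : ∀ f g, φ (f + g) = φ f + φ g)
    (hs : ∀ (c : ℝ) f, φ (c • f) = c * φ f) (hp : ∀ f : ℤ →ᵇ ℝ, (∀ n, 0 ≤ f n) → 0 ≤ φ f)
    (f : ℤ →ᵇ ℝ) : |φ f| ≤ ‖f‖ * φ 1 := by
  have h1 := hp (‖f‖ • 1 + (-1 : ℝ) • f) (fun n => by
    have := f.norm_coe_le_norm n
    rw [Real.norm_eq_abs] at this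
    have h2 := (abs_le.1 this).2
    simp only [BoundedContinuousFunction.coe_add, BoundedContinuousFunction.coe_smul,
      Pi.add_apply, BoundedContinuousFunction.coe_one, Pi.one_apply, smul_eq_mul]
    linarith)
  have h2 := hp (‖f‖ • 1 + (1 : ℝ) • f) (fun n => by
    have := f.norm_coe_le_norm n
    rw [Real.norm_eq_abs] at this
    have h2 := (abs_le.1 this).1
    simp only [BoundedContinuousFunction.coe_add, BoundedContinuousFunction.coe_smul,
      Pi.add_apply, BoundedContinuousFunction.coe_one, Pi.one_apply, smul_eq_mul]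
    linarith)
  rw [ha, hs, hs] at h1 h2
  rw [abs_le]
  constructor <;> linarith

theorem KK_closed (M : Set (Ultrafilter ℤ)) : IsClosed (KK M) := by
  have e : KK M = {φ | ∀ f g, φ (f + g) = φ f + φ g} ∩ {φ | ∀ (c : ℝ) f, φ (c • f) = c * φ f} ∩
    {φ | ∀ f : ℤ →ᵇ ℝ, (∀ n, 0 ≤ f n) → 0 ≤ φ f} ∩ {φ | φ 1 = 1} ∩ {φ | ∀ f, φ (sh 1 f) = φ f} ∩
    {φ | ∀ A : Set ℤ, (∀ u ∈ M, A ∉ u) → φ (ind A) = 0} := by
    ext φ
    simp only [KK, Set.mem_inter_iff, Set.mem_ofPred_eq, and_assoc]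
  rw [e]
  have hc : ∀ f : ℤ →ᵇ ℝ, Continuous fun φ : (ℤ →ᵇ ℝ) → ℝ => φ f := fun f => continuous_apply f
  refine IsClosed.inter (IsClosed.inter (IsClosed.inter (IsClosed.inter (IsClosed.inter ?_ ?_)
    ?_) ?_) ?_) ?_
  · simp only [Set.ofPred_forall]
    exact isClosed_iInter fun f => isClosed_iInter fun g =>
      isClosed_eq (hc _) ((hc _).add (hc _))
  · simp only [Set.ofPred_forall]
    exact isClosed_iInter fun c => isClosed_iInter fun f =>
      isClosed_eq (hc _) (continuous_const.mul (hc _))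
  · simp only [Set.ofPred_forall]
    exact isClosed_iInter fun f => isClosed_iInter fun _ => isClosed_le continuous_const (hc _)
  · exact isClosed_eq (hc _) continuous_const
  · simp only [Set.ofPred_forall]
    exact isClosed_iInter fun f => isClosed_eq (hc _) (hc _)
  · simp only [Set.ofPred_forall]
    exact isClosed_iInter fun A => isClosed_iInter fun _ => isClosed_eq (hc _) continuous_const

theorem KK_compact (M : Set (Ultrafilter ℤ)) : IsCompact (KK M) := by
  have h1 : IsCompact (Set.univ.pi fun f : ℤ →ᵇ ℝ => Set.Icc (-‖f‖) ‖f‖) :=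
    isCompact_univ_pi fun f => isCompact_Icc
  refine h1.of_isClosed_subset (KK_closed M) ?_
  intro φ hφ f _
  have h2 := pos_bound φ hφ.1 hφ.2.1 hφ.2.2.1 f
  rw [hφ.2.2.2.1, mul_one] at h2
  exact abs_le.1 h2

theorem sh_apply (k : ℤ) (f : ℤ →ᵇ ℝ) (n : ℤ) : sh k f n = f (n + k) := rfl

theorem ind_apply (A : Set ℤ) (n : ℤ) : ind A n = A.indicator (fun _ => (1 : ℝ)) n := rfl

theorem KK_nonempty (M : Set (Ultrafilter ℤ)) (hM : M.Nonempty)
    (hsh : ∀ u ∈ M, ∀ k : ℤ, u.map (fun n => n + k) ∈ M) : (KK M).Nonempty := by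
  obtain ⟨u, hu⟩ := hM
  have hev : ∀ f : ℤ →ᵇ ℝ, ∃ y, |y| ≤ ‖f‖ ∧ Tendsto f u (𝓝 y) := fun f =>
    ex_lim u f ‖f‖ fun n => by
      have := f.norm_coe_le_norm n
      rwa [Real.norm_eq_abs] at this
  choose ev hev1 hev2 using hev
  have ev_add : ∀ f g, ev (f + g) = ev f + ev g := fun f g =>
    tendsto_nhds_unique (hev2 (f + g)) ((hev2 f).add (hev2 g))
  have ev_smul : ∀ (c : ℝ) f, ev (c • f) = c * ev f := fun c f =>
    tendsto_nhds_unique (hev2 (c • f)) ((hev2 f).const_mul c)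
  have ev_pos : ∀ f : ℤ →ᵇ ℝ, (∀ n, 0 ≤ f n) → 0 ≤ ev f := fun f hf =>
    ge_of_tendsto' (hev2 f) hf
  have ev_one : ev 1 = 1 := tendsto_nhds_unique (hev2 1) tendsto_const_nhds
  have hshn : ∀ (k : ℤ) (f : ℤ →ᵇ ℝ), ‖sh k f‖ ≤ ‖f‖ := fun k f =>
    (BoundedContinuousFunction.norm_le (norm_nonneg _)).2 fun n => f.norm_coe_le_norm (n + k)
  have sh_add : ∀ (k : ℤ) (f g : ℤ →ᵇ ℝ), sh k (f + g) = sh k f + sh k g := fun k f g => by
    ext n
    rfl
  have sh_smul : ∀ (k : ℤ) (c : ℝ) (f : ℤ →ᵇ ℝ), sh k (c • f) = c • sh k f := fun k c f => by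
    ext n
    rfl
  obtain ⟨ψ, hψ⟩ : ∃ ψ : ℕ → (ℤ →ᵇ ℝ) → ℝ, ∀ n f,
      ψ n f = (∑ k ∈ range (n + 1), ev (sh k f)) / (n + 1) := ⟨_, fun _ _ => rfl⟩
  have hψb : ∀ f n, |ψ n f| ≤ ‖f‖ := by
    intro f n
    rw [hψ, abs_div, abs_of_pos (by positivity : (0 : ℝ) < (n : ℝ) + 1), div_le_iff₀ (by positivity)]
    refine (abs_sum_le_sum_abs _ _).trans ?_
    calc ∑ k ∈ range (n + 1), |ev (sh k f)| ≤ ∑ k ∈ range (n + 1), ‖f‖ :=
          sum_le_sum fun k _ => (hev1 _).trans (hshn _ _)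
      _ = ‖f‖ * ((n : ℝ) + 1) := by
          rw [sum_const, card_range, nsmul_eq_mul]
          push_cast
          ring
  have hlim : ∀ f : ℤ →ᵇ ℝ, ∃ y, |y| ≤ ‖f‖ ∧
      Tendsto (fun n => ψ n f) (hyperfilter ℕ : Ultrafilter ℕ) (𝓝 y) := fun f =>
    ex_lim (hyperfilter ℕ) (fun n => ψ n f) ‖f‖ (hψb f)
  choose φ hφ1 hφ2 using hlim
  have hle : ((hyperfilter ℕ : Ultrafilter ℕ) : Filter ℕ) ≤ atTop := Nat.hyperfilter_le_atTop
  refine ⟨φ, fun f g => ?_, fun c f => ?_, fun f hf => ?_, ?_, fun f => ?_, fun A hA => ?_⟩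
  · refine tendsto_nhds_unique (hφ2 (f + g)) (((hφ2 f).add (hφ2 g)).congr fun n => ?_)
    simp only [hψ, sh_add, ev_add, sum_add_distrib, add_div]
  · refine tendsto_nhds_unique (hφ2 (c • f)) (((hφ2 f).const_mul c).congr fun n => ?_)
    simp only [hψ, sh_smul, ev_smul, ← mul_sum, mul_div_assoc]
  · refine ge_of_tendsto' (hφ2 f) fun n => ?_
    rw [hψ]
    refine div_nonneg (sum_nonneg fun k _ => ev_pos _ fun m => ?_) (by positivity)
    exact hf _
  · refine tendsto_nhds_unique (hφ2 1) (tendsto_const_nhds.congr fun n => ?_)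
    have h1 : ∀ k : ℤ, sh k (1 : ℤ →ᵇ ℝ) = 1 := fun k => by
      ext n
      rfl
    simp only [hψ, h1, ev_one, sum_const, card_range, nsmul_eq_mul]
    push_cast
    field_simp
  · have h1 : Tendsto (fun n => ψ n (sh 1 f) - ψ n f) (hyperfilter ℕ : Ultrafilter ℕ)
        (𝓝 (φ (sh 1 f) - φ f)) := (hφ2 _).sub (hφ2 _)
    have h2 : Tendsto (fun n => ψ n (sh 1 f) - ψ n f) atTop (𝓝 0) := by
      apply squeeze_zero_norm (a := fun n : ℕ => (2 * ‖f‖) * (1 / ((n : ℝ) + 1)))
      · intro n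
        have h3 : ψ n (sh 1 f) - ψ n f = (ev (sh ((n + 1 : ℕ) : ℤ) f) - ev (sh ((0 : ℕ) : ℤ) f)) /
            (n + 1) := by
          have h4 : ∀ k : ℕ, sh (k : ℤ) (sh 1 f) = sh ((k + 1 : ℕ) : ℤ) f := by
            intro k
            ext m
            rw [sh_apply, sh_apply, sh_apply]
            congr 1
            push_cast
            ring
          simp only [hψ, h4]
          rw [← sub_div, ← sum_sub_distrib,
            sum_range_sub (fun k : ℕ => ev (sh (k : ℤ) f))]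
        rw [h3, Real.norm_eq_abs, abs_div, abs_of_pos (by positivity : (0 : ℝ) < (n : ℝ) + 1),
          div_le_iff₀ (by positivity)]
        have h5 : (2 * ‖f‖) * (1 / ((n : ℝ) + 1)) * ((n : ℝ) + 1) = 2 * ‖f‖ := by
          field_simp
        rw [h5]
        refine (abs_sub _ _).trans ?_
        have h6 := (hev1 (sh ((n + 1 : ℕ) : ℤ) f)).trans (hshn _ f)
        have h7 := (hev1 (sh ((0 : ℕ) : ℤ) f)).trans (hshn _ f)
        linarith
      · have h3 := (tendsto_one_div_add_atTop_nhds_zero_nat (𝕜 := ℝ)).const_mul (2 * ‖f‖)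
        rwa [mul_zero] at h3
    have h3 := tendsto_nhds_unique h1 (h2.mono_left hle)
    linarith
  · refine tendsto_nhds_unique (hφ2 _) (tendsto_const_nhds.congr fun n => ?_)
    have h1 : ∀ k : ℕ, ev (sh (k : ℤ) (ind A)) = 0 := by
      intro k
      have h2 : A ∉ u.map (fun n => n + (k : ℤ)) := hA _ (hsh u hu k)
      have h3 : ∀ᶠ n in (u : Filter ℤ), (sh (k : ℤ) (ind A)) n = 0 := by
        have h4 : {n : ℤ | n + (k : ℤ) ∈ A} ∉ u := h2
        have h5 := Ultrafilter.compl_mem_iff_notMem.2 h4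
        filter_upwards [h5] with n hn
        rw [sh_apply, ind_apply]
        have h7 : n + (k : ℤ) ∉ A := hn
        exact Set.indicator_of_notMem h7 (fun _ => (1 : ℝ))
      have h6 : Tendsto (fun n : ℤ => (sh (k : ℤ) (ind A)) n) (u : Filter ℤ) (𝓝 (0 : ℝ)) :=
        (tendsto_const_nhds (x := (0 : ℝ))).congr' (h3.mono fun n hn => hn.symm)
      exact tendsto_nhds_unique (hev2 _) h6
    simp only [hψ, h1, sum_const_zero, zero_div]

theorem ext : S_ext := by
  intro M hM hsh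
  obtain ⟨φ, hφ⟩ := (KK_compact M).extremePoints_nonempty (KK_nonempty M hM hsh)
  have hmem : φ ∈ KK M := hφ.1
  obtain ⟨ha, hs, hp, h1, hi, hk⟩ := hmem
  let m : (ℤ →ᵇ ℝ) →ₗ[ℝ] ℝ :=
    { toFun := φ
      map_add' := ha
      map_smul' := hs }
  have hm : ∀ f, m f = φ f := fun f => rfl
  refine ⟨m, ⟨hp, h1, hi⟩, ?_, hk⟩
  intro m' hm' hinv f
  obtain ⟨t, ht⟩ : ∃ t, t = m' 1 := ⟨_, rfl⟩
  have h10 : ∀ n : ℤ, (0 : ℝ) ≤ (1 : ℤ →ᵇ ℝ) n := fun n => by simp
  have ht0 : 0 ≤ t := by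
    rw [ht]
    exact (hm' 1 h10).1
  have ht1 : t ≤ 1 := by
    rw [ht]
    have := (hm' 1 h10).2
    rwa [hm, h1] at this
  have hb1 : |m' f| ≤ ‖f‖ * m' 1 := pos_bound m' (map_add m') (fun c g => by
    rw [map_smul, smul_eq_mul]) (fun g hg => (hm' g hg).1) f
  have hb2 : |m f - m' f| ≤ ‖f‖ * (m 1 - m' 1) :=
    pos_bound (fun g => m g - m' g) (fun g h => by
      rw [map_add, map_add]
      ring) (fun c g => by
      rw [map_smul, map_smul, smul_eq_mul, smul_eq_mul]
      ring) (fun g hg => sub_nonneg.2 (hm' g hg).2) f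
  rw [← ht] at hb1 hb2 ⊢
  have hm1 : m 1 = 1 := h1
  rw [hm1] at hb2
  rcases ht0.eq_or_lt with h0 | h0
  · rw [← h0, mul_zero] at hb1
    rw [← h0, zero_mul]
    exact abs_nonpos_iff.1 hb1
  · rcases ht1.eq_or_lt with h2 | h2
    · rw [h2, sub_self, mul_zero] at hb2
      have := abs_nonpos_iff.1 hb2
      rw [h2, one_mul]
      linarith
    · have hmem1 : (fun g => m' g / t) ∈ KK M := by
        refine ⟨fun g h => ?_, fun c g => ?_, fun g hg => ?_, ?_, fun g => ?_, fun A hA => ?_⟩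
        · change m' (g + h) / t = m' g / t + m' h / t
          rw [map_add, add_div]
        · change m' (c • g) / t = c * (m' g / t)
          rw [map_smul, smul_eq_mul, mul_div_assoc]
        · exact div_nonneg (hm' g hg).1 h0.le
        · change m' 1 / t = 1
          rw [← ht, div_self h0.ne']
        · change m' (sh 1 g) / t = m' g / t
          rw [hinv]
        · have h3 := hm' (ind A) fun n => by
            rw [ind_apply]
            exact Set.indicator_nonneg (fun _ _ => zero_le_one) _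
          have h4 : m (ind A) = 0 := hk A hA
          rw [h4] at h3
          change m' (ind A) / t = 0
          rw [le_antisymm h3.2 h3.1, zero_div]
      have h1t : 0 < 1 - t := by linarith
      have hmem2 : (fun g => (m g - m' g) / (1 - t)) ∈ KK M := by
        refine ⟨fun g h => ?_, fun c g => ?_, fun g hg => ?_, ?_, fun g => ?_, fun A hA => ?_⟩
        · change (m (g + h) - m' (g + h)) / (1 - t) =
            (m g - m' g) / (1 - t) + (m h - m' h) / (1 - t)
          rw [map_add, map_add]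
          ring
        · change (m (c • g) - m' (c • g)) / (1 - t) = c * ((m g - m' g) / (1 - t))
          rw [map_smul, map_smul, smul_eq_mul, smul_eq_mul]
          ring
        · exact div_nonneg (sub_nonneg.2 (hm' g hg).2) h1t.le
        · change (m 1 - m' 1) / (1 - t) = 1
          rw [← ht, hm1, div_self h1t.ne']
        · change (m (sh 1 g) - m' (sh 1 g)) / (1 - t) = (m g - m' g) / (1 - t)
          rw [hinv, hm, hm, hi]
        · have h3 := hm' (ind A) fun n => by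
            rw [ind_apply]
            exact Set.indicator_nonneg (fun _ _ => zero_le_one) _
          have h4 : m (ind A) = 0 := hk A hA
          rw [h4] at h3
          change (m (ind A) - m' (ind A)) / (1 - t) = 0
          rw [le_antisymm h3.2 h3.1, h4, sub_zero, zero_div]
      have hseg : φ ∈ openSegment ℝ (fun g => m' g / t) (fun g => (m g - m' g) / (1 - t)) := by
        refine ⟨t, 1 - t, h0, h1t, by ring, ?_⟩
        funext g
        simp only [Pi.add_apply, Pi.smul_apply, smul_eq_mul]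
        rw [hm g]
        field_simp
        ring
      have h3 := hφ.2 hmem1 hmem2 hseg
      have h4 : m' f / t = φ f := congrFun h3 f
      rw [hm f, ← h4]
      field_simp

end Pool.Agent.W880.BQ
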