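import Mathlib

set_option autoImplicit false
open MeasureTheory Filter Topology Finset
open scoped BoundedContinuousFunction ENNReal

/-!
# Project BQ, part CL, tools : law of `k g`, continuity of translation in `L1`
-/

namespace Pool.Agent.W880.BQ

/-- bounded measurable functions are integrable for finite measures -/
theorem bint {Y : Type} [MeasurableSpace Y] {ν : Measure Y} [IsFiniteMeasure ν] {f : Y → ℝ}
    (hf : Measurable f) {C : ℝ} (hC : ∀ y, |f y| ≤ C) : Integrable f ν :=
  Integrable.mono' (integrable_const C) hf.aestronglyMeasurable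
    (Eventually.of_forall fun y => by rw [Real.norm_eq_abs]; exact hC y)

section CLa

set_option linter.unusedSectionVars false

variable {Z : Type} [AddCommGroup Z] [TopologicalSpace Z] [IsTopologicalAddGroup Z]
  [CompactSpace Z] [T2Space Z] [SecondCountableTopology Z] [MeasurableSpace Z] [BorelSpace Z]
  (μ : Measure Z) [IsProbabilityMeasure μ] [μ.IsAddHaarMeasure]

theorem law_int (α : Z) (hα : DenseRange (fun n : ℤ => n • α)) (k : ℕ) (f : Z →ᵇ ℝ) :
    ∑ i ∈ range k, ∫ g, f (k • g + i • α) ∂μ = k * ∫ g, f g ∂μ := by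
  obtain ⟨h, hh⟩ : ∃ h : Z → ℕ → ℝ, ∀ z i, h z i = ∫ g, f (k • g + i • α + z) ∂μ :=
    ⟨_, fun _ _ => rfl⟩
  have hcont : ∀ i, Continuous fun z => h z i := by
    intro i
    simp only [hh]
    refine continuous_of_dominated (bound := fun _ => ‖f‖) (fun z => ?_) (fun z => ?_)
      (integrable_const _) (Eventually.of_forall fun g => ?_)
    · exact (f.continuous.comp (by fun_prop)).aestronglyMeasurable
    · exact Eventually.of_forall fun g => f.norm_coe_le_norm _
    · exact f.continuous.comp (by fun_prop)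
  have hstep : ∀ z, ∑ i ∈ range k, h (z + α) i = ∑ i ∈ range k, h z i := by
    intro z
    have h1 : ∀ i, h (z + α) i = h z (i + 1) := by
      intro i
      rw [hh, hh]
      refine integral_congr_ae (Eventually.of_forall fun g => ?_)
      simp only
      congr 1
      rw [add_smul, one_smul]
      abel
    have h2 : h z k = h z 0 := by
      rw [hh, hh]
      have h3 := integral_add_right_eq_self (μ := μ) (fun g => f (k • g + 0 • α + z)) α
      rw [← h3]
      refine integral_congr_ae (Eventually.of_forall fun g => ?_)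
      simp only
      congr 1
      rw [smul_add, zero_smul]
      abel
    simp only [h1]
    have h3 := sum_range_succ (h z) k
    have h4 := sum_range_succ' (h z) k
    linarith
  obtain ⟨Φ, hΦ⟩ : ∃ Φ : Z → ℝ, ∀ z, Φ z = ∑ i ∈ range k, h z i := ⟨_, fun _ => rfl⟩
  have hΦc : Continuous Φ := by
    have : Φ = fun z => ∑ i ∈ range k, h z i := funext hΦ
    rw [this]
    exact continuous_finsetSum _ fun i _ => hcont i
  have hΦs : ∀ z, Φ (z + α) = Φ z := fun z => by rw [hΦ, hΦ, hstep]
  have hΦn : ∀ n : ℤ, Φ (n • α) = Φ 0 := by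
    intro n
    induction n using Int.induction_on with
    | zero => rw [zero_smul]
    | succ n ih =>
      rw [add_smul, one_smul, hΦs, ih]
    | pred n ih =>
      rw [← ih, ← hΦs ((-(n : ℤ) - 1) • α)]
      congr 1
      rw [sub_smul, one_smul]
      abel
  have hΦ0 : ∀ z, Φ z = Φ 0 := by
    have h1 : Φ = fun _ => Φ 0 := by
      refine hα.equalizer hΦc continuous_const ?_
      funext n
      exact hΦn n
    intro z
    rw [h1]
  have h1 : ∫ z, Φ z ∂μ = Φ 0 := by
    simp only [hΦ0, integral_const, probReal_univ, one_smul]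
  have h2 : ∀ i, ∫ z, h z i ∂μ = ∫ g, f g ∂μ := by
    intro i
    simp only [hh]
    rw [integral_integral_swap]
    · have h3 : ∀ g, ∫ z, f (k • g + i • α + z) ∂μ = ∫ z, f z ∂μ := by
        intro g
        exact integral_add_left_eq_self (μ := μ) (fun z => f z) _
      simp only [h3, integral_const, probReal_univ, one_smul]
    · refine Integrable.mono' (integrable_const ‖f‖) ?_ (Eventually.of_forall fun p =>
        f.norm_coe_le_norm _)
      exact (f.continuous.comp (by fun_prop)).aestronglyMeasurable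
  have h3 : ∫ z, Φ z ∂μ = ∑ i ∈ range k, ∫ z, h z i ∂μ := by
    have h4 : ∀ i ∈ range k, Integrable (fun z => h z i) μ := by
      intro i _
      exact (hcont i).integrable_of_hasCompactSupport (HasCompactSupport.of_compactSpace _)
    rw [← integral_finsetSum _ h4]
    exact integral_congr_ae (Eventually.of_forall fun z => hΦ z)
  rw [h1, sum_congr rfl fun i _ => h2 i, sum_const, card_range, nsmul_eq_mul, hΦ] at h3
  rw [← h3]
  refine sum_congr rfl fun i _ => ?_
  rw [hh]
  simp only [add_zero]

theorem law_map (α : Z) (hα : DenseRange (fun n : ℤ => n • α)) (k : ℕ) :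
    ∑ i ∈ range k, μ.map (fun g => k • g + i • α) = (k : ℝ≥0∞) • μ := by
  have hm : ∀ i : ℕ, Measurable fun g : Z => k • g + i • α := fun i =>
    (Continuous.measurable (by fun_prop))
  have hfin : IsFiniteMeasure ((k : ℝ≥0∞) • μ) := by
    refine ⟨?_⟩
    rw [Measure.smul_apply, smul_eq_mul, measure_univ, mul_one]
    exact ENNReal.natCast_lt_top k
  have hp : ∀ i : ℕ, IsProbabilityMeasure (μ.map (fun g : Z => k • g + i • α)) := fun i =>
    Measure.isProbabilityMeasure_map (hm i).aemeasurable
  apply ext_of_forall_integral_eq_of_IsFiniteMeasure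
  intro f
  rw [integral_finsetSum_measure (fun i _ => f.integrable _), integral_smul_measure]
  have h1 : ∀ i ∈ range k, ∫ x, f x ∂(μ.map (fun g : Z => k • g + i • α)) =
      ∫ g, f (k • g + i • α) ∂μ := by
    intro i _
    rw [integral_map (hm i).aemeasurable f.continuous.aestronglyMeasurable]
  rw [sum_congr rfl h1, law_int μ α hα k f]
  simp

theorem law_le_nat (α : Z) (hα : DenseRange (fun n : ℤ => n • α)) (k : ℕ) (hk : 0 < k)
    (h : Z → ℝ) (hm : Measurable h) (h0 : ∀ z, 0 ≤ h z) (C : ℝ) (hC : ∀ z, h z ≤ C) :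
    ∫ g, h (k • g) ∂μ ≤ k * ∫ z, h z ∂μ := by
  have h1 := law_map μ α hα k
  have hm2 : ∀ i : ℕ, Measurable fun g : Z => k • g + i • α := fun i =>
    (Continuous.measurable (by fun_prop))
  have hp : ∀ i : ℕ, IsProbabilityMeasure (μ.map (fun g : Z => k • g + i • α)) := fun i =>
    Measure.isProbabilityMeasure_map (hm2 i).aemeasurable
  have h2 : ∀ i : ℕ, ∫ z, h z ∂(μ.map (fun g : Z => k • g + i • α)) =
      ∫ g, h (k • g + i • α) ∂μ := fun i =>
    integral_map (hm2 i).aemeasurable hm.aestronglyMeasurable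
  have h3 : ∫ z, h z ∂((k : ℝ≥0∞) • μ) = ∑ i ∈ range k, ∫ g, h (k • g + i • α) ∂μ := by
    rw [← h1, integral_finsetSum_measure fun i _ => bint hm (C := C) fun z => ?_]
    · exact sum_congr rfl fun i _ => h2 i
    · rw [abs_of_nonneg (h0 z)]
      exact hC z
  have h4 : ∫ z, h z ∂((k : ℝ≥0∞) • μ) = k * ∫ z, h z ∂μ := by
    rw [integral_smul_measure]
    simp
  rw [← h4, h3]
  have h5 : ∫ g, h (k • g + 0 • α) ∂μ ≤ ∑ i ∈ range k, ∫ g, h (k • g + i • α) ∂μ :=
    single_le_sum (f := fun i : ℕ => ∫ g, h (k • g + i • α) ∂μ)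
      (fun i _ => integral_nonneg fun g => h0 _) (mem_range.2 hk)
  simpa using h5

theorem law_le (α : Z) (hα : DenseRange (fun n : ℤ => n • α)) (k : ℤ) (hk : k ≠ 0)
    (h : Z → ℝ) (hm : Measurable h) (h0 : ∀ z, 0 ≤ h z) (C : ℝ) (hC : ∀ z, h z ≤ C) (c : Z) :
    ∫ g, h (c + k • g) ∂μ ≤ |k| * ∫ z, h z ∂μ := by
  obtain ⟨n, hn⟩ : ∃ n : ℕ, n = k.natAbs := ⟨_, rfl⟩
  have hn0 : 0 < n := by omega
  have h1 := law_le_nat μ α hα n hn0 (fun z => h (c + z)) (hm.comp (by fun_prop))
    (fun z => h0 _) C (fun z => hC _)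
  have h2 : ∫ z, h (c + z) ∂μ = ∫ z, h z ∂μ := integral_add_left_eq_self (μ := μ) h c
  rw [h2] at h1
  have h3 : ((|k| : ℤ) : ℝ) = n := by
    rw [hn]
    exact (Nat.cast_natAbs k).symm
  rw [h3]
  rcases Int.natAbs_eq k with h4 | h4
  · rw [← hn] at h4
    rw [h4]
    simpa using h1
  · rw [← hn] at h4
    rw [h4]
    have h5 := integral_neg_eq_self (μ := μ) (fun g => h (c + (n : ℕ) • g))
    rw [← h5] at h1
    simpa using h1

/-- translation is continuous in `L1` -/
theorem transl (G : Z → ℝ) (hG : Measurable G) (hC : ∀ z, |G z| ≤ 1) :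
    Tendsto (fun b : Z => ∫ x, |G (x + b) - G x| ∂μ) (𝓝 0) (𝓝 0) := by
  have hGi : Integrable G μ := bint hG hC
  rw [tendsto_order]
  constructor
  · intro a ha
    exact Eventually.of_forall fun b => ha.trans_le (integral_nonneg fun x => abs_nonneg _)
  · intro ε hε
    obtain ⟨g, hg, hgi⟩ := hGi.exists_boundedContinuous_integral_sub_le
      (by positivity : 0 < ε / 4)
    have h1 : ∀ᶠ b in 𝓝 (0 : Z), ∀ x ∈ (Set.univ : Set Z), |g (x + b) - g x| < ε / 4 := by
      have h2 : ∀ x ∈ (Set.univ : Set Z), ∀ᶠ q : Z × Z in 𝓝 (0, x),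
          |g (q.2 + q.1) - g q.2| < ε / 4 := by
        intro x _
        have h3 : Continuous fun q : Z × Z => |g (q.2 + q.1) - g q.2| :=
          ((g.continuous.comp (by fun_prop)).sub (g.continuous.comp (by fun_prop))).abs
        have h4 := h3.continuousAt (x := ((0 : Z), x))
        refine h4.eventually_lt continuousAt_const ?_
        simp only [add_zero, sub_self, abs_zero]
        positivity
      have h3 := isCompact_univ.eventually_forall_of_forall_eventually (x₀ := (0 : Z))
        (K := (Set.univ : Set Z)) (P := fun b x => |g (x + b) - g x| < ε / 4) h2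
      exact h3
    filter_upwards [h1] with b hb
    have hmb : Measurable fun x => G (x + b) := hG.comp (by fun_prop)
    have hgb : Continuous fun x => g (x + b) := g.continuous.comp (by fun_prop)
    have i1 : Integrable (fun x => ‖G x - g x‖) μ := (hGi.sub hgi).norm
    have i2 : Integrable (fun x => ‖G (x + b) - g (x + b)‖) μ := i1.comp_add_right b
    have i3 : Integrable (fun x => |G (x + b) - G x|) μ :=
      ((hGi.comp_add_right b).sub hGi).abs
    have i4 : Integrable (fun x => ‖G (x + b) - g (x + b)‖ + ε / 4) μ :=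
      i2.add (integrable_const _)
    calc ∫ x, |G (x + b) - G x| ∂μ ≤
        ∫ x, (‖G (x + b) - g (x + b)‖ + ε / 4 + ‖G x - g x‖) ∂μ := by
          refine integral_mono i3 ((i2.add (integrable_const _)).add i1) fun x => ?_
          have h2 := hb x trivial
          have h3 : G (x + b) - G x = (G (x + b) - g (x + b)) + (g (x + b) - g x) -
            (G x - g x) := by ring
          change |G (x + b) - G x| ≤ ‖G (x + b) - g (x + b)‖ + ε / 4 + ‖G x - g x‖
          rw [h3, Real.norm_eq_abs, Real.norm_eq_abs]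
          refine (abs_sub _ _).trans ?_
          have h4 := abs_add_le (G (x + b) - g (x + b)) (g (x + b) - g x)
          linarith
      _ = ∫ x, ‖G (x + b) - g (x + b)‖ ∂μ + ε / 4 + ∫ x, ‖G x - g x‖ ∂μ := by
          rw [integral_add i4 i1, integral_add i2 (integrable_const _)]
          simp
      _ = ∫ x, ‖G x - g x‖ ∂μ + ε / 4 + ∫ x, ‖G x - g x‖ ∂μ := by
          rw [integral_add_right_eq_self (μ := μ) (fun x => ‖G x - g x‖) b]
      _ < ε := by linarith

end CLa

section L1

set_option linter.unusedSectionVars false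

/-- continuity in `L1` of a family of functions, with measurability and a bound -/
structure L1c {A Y : Type} [TopologicalSpace A] [MeasurableSpace Y] (ν : Measure Y) (C : ℝ)
    (X : A → Y → ℝ) : Prop where
  meas : ∀ a, Measurable (X a)
  bd : ∀ a y, |X a y| ≤ C
  cont : ∀ a, Tendsto (fun a' => ∫ y, |X a' y - X a y| ∂ν) (𝓝 a) (𝓝 0)

variable {A Y : Type} [TopologicalSpace A] [MeasurableSpace Y] {ν : Measure Y}
  [IsProbabilityMeasure ν]

theorem L1c.nonneg {C : ℝ} {X : A → Y → ℝ} (h : L1c ν C X) (a : A) : 0 ≤ C := by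
  have : Nonempty Y := by
    by_contra hcon
    rw [not_nonempty_iff] at hcon
    have h1 := measure_univ (μ := ν)
    rw [Set.eq_empty_of_isEmpty (Set.univ : Set Y), measure_empty] at h1
    exact zero_ne_one h1
  obtain ⟨y⟩ := this
  exact (abs_nonneg _).trans (h.bd a y)

theorem L1c.diff_int {C : ℝ} {X : A → Y → ℝ} (h : L1c ν C X) (a a' : A) :
    Integrable (fun y => |X a' y - X a y|) ν :=
  ((bint (h.meas a') (h.bd a')).sub (bint (h.meas a) (h.bd a))).abs

theorem L1c.mul {C D : ℝ} {X X' : A → Y → ℝ} (h : L1c ν C X) (h' : L1c ν D X') :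
    L1c ν (C * D) fun a y => X a y * X' a y where
  meas a := (h.meas a).mul (h'.meas a)
  bd a y := by
    rw [abs_mul]
    exact mul_le_mul (h.bd a y) (h'.bd a y) (abs_nonneg _) (h.nonneg a)
  cont a := by
    have h1 : Tendsto (fun a' => D * ∫ y, |X a' y - X a y| ∂ν + C * ∫ y, |X' a' y - X' a y| ∂ν)
        (𝓝 a) (𝓝 (D * 0 + C * 0)) := ((h.cont a).const_mul D).add ((h'.cont a).const_mul C)
    rw [mul_zero, mul_zero, add_zero] at h1
    refine tendsto_of_tendsto_of_tendsto_of_le_of_le tendsto_const_nhds h1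
      (fun a' => integral_nonneg fun y => abs_nonneg _) fun a' => ?_
    change ∫ y, |X a' y * X' a' y - X a y * X' a y| ∂ν ≤ _
    rw [← integral_const_mul, ← integral_const_mul, ← integral_add
      ((h.diff_int a a').const_mul _) ((h'.diff_int a a').const_mul _)]
    refine integral_mono ?_ (((h.diff_int a a').const_mul _).add
      ((h'.diff_int a a').const_mul _)) fun y => ?_
    · have m1 : Measurable fun y => X a' y * X' a' y - X a y * X' a y :=
        ((h.meas a').mul (h'.meas a')).sub ((h.meas a).mul (h'.meas a))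
      refine (bint m1 (C := C * D + C * D) fun y => ?_).abs
      refine (abs_sub _ _).trans (add_le_add ?_ ?_)
      · rw [abs_mul]
        exact mul_le_mul (h.bd a' y) (h'.bd a' y) (abs_nonneg _) (h.nonneg a)
      · rw [abs_mul]
        exact mul_le_mul (h.bd a y) (h'.bd a y) (abs_nonneg _) (h.nonneg a)
    · change |X a' y * X' a' y - X a y * X' a y| ≤ D * |X a' y - X a y| + C * |X' a' y - X' a y|
      have h2 : X a' y * X' a' y - X a y * X' a y =
        (X a' y - X a y) * X' a' y + X a y * (X' a' y - X' a y) := by ring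
      rw [h2]
      refine (abs_add_le _ _).trans ?_
      rw [abs_mul, abs_mul]
      have h3 := h'.bd a' y
      have h4 := h.bd a y
      have h5 := abs_nonneg (X a' y - X a y)
      have h6 := abs_nonneg (X' a' y - X' a y)
      nlinarith

theorem L1c.one : L1c ν 1 (fun (_ : A) (_ : Y) => (1 : ℝ)) where
  meas _ := measurable_const
  bd _ _ := by simp
  cont _ := by simp

theorem L1c.prod {ι : Type} (s : Finset ι) (X : ι → A → Y → ℝ)
    (h : ∀ i ∈ s, L1c ν 1 (X i)) : L1c ν 1 fun a y => ∏ i ∈ s, X i a y := by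
  classical
  induction s using Finset.induction_on with
  | empty => simpa using L1c.one
  | insert i s hi ih =>
    have h1 := (h i (mem_insert_self _ _)).mul (ih fun j hj => h j (mem_insert_of_mem hj))
    rw [mul_one] at h1
    simpa only [prod_insert hi] using h1

theorem L1c.continuous {C : ℝ} {X : A → Y → ℝ} (h : L1c ν C X) :
    Continuous fun a => ∫ y, X a y ∂ν := by
  rw [continuous_iff_continuousAt]
  intro a
  change Tendsto (fun a' => ∫ y, X a' y ∂ν) (𝓝 a) (𝓝 (∫ y, X a y ∂ν))
  rw [tendsto_iff_dist_tendsto_zero]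
  refine tendsto_of_tendsto_of_tendsto_of_le_of_le tendsto_const_nhds (h.cont a)
    (fun a' => dist_nonneg) fun a' => ?_
  change dist (∫ y, X a' y ∂ν) (∫ y, X a y ∂ν) ≤ ∫ y, |X a' y - X a y| ∂ν
  rw [Real.dist_eq, ← integral_sub (bint (h.meas a') (h.bd a')) (bint (h.meas a) (h.bd a))]
  exact abs_integral_le_integral_abs

end L1

end Pool.Agent.W880.BQ
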