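import Mathlib
import Pool.Agent.W634.BQ.Stms
import Pool.Agent.W880.BQ.CLa

set_option autoImplicit false
open MeasureTheory Filter Topology Finset
open scoped BoundedContinuousFunction ENNReal

/-!
# Project BQ, part CL : the configuration lemma on a compact monothetic group
-/

namespace Pool.Agent.W880.BQ
open Pool.Agent.W634.BQ

section CL

set_option linter.unusedSectionVars false

variable {Z : Type} [AddCommGroup Z] [TopologicalSpace Z] [IsTopologicalAddGroup Z]
  [CompactSpace Z] [T2Space Z] [SecondCountableTopology Z] [MeasurableSpace Z] [BorelSpace Z]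
  (μ : Measure Z) [IsProbabilityMeasure μ] [μ.IsAddHaarMeasure]

/-- a continuous function on a compact group is uniformly continuous for translations -/
theorem unif_transl (g : C(Z, ℝ)) (ε : ℝ) (hε : 0 < ε) :
    ∀ᶠ b in 𝓝 (0 : Z), ∀ x : Z, |g (x + b) - g x| < ε := by
  have h2 : ∀ x ∈ (Set.univ : Set Z), ∀ᶠ q : Z × Z in 𝓝 (0, x),
      |g (q.2 + q.1) - g q.2| < ε := by
    intro x _
    have h3 : Continuous fun q : Z × Z => |g (q.2 + q.1) - g q.2| :=
      ((g.continuous.comp (by fun_prop)).sub (g.continuous.comp (by fun_prop))).abs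
    have h4 := h3.continuousAt (x := ((0 : Z), x))
    refine h4.eventually_lt continuousAt_const ?_
    simp only [add_zero, sub_self, abs_zero]
    exact hε
  have h3 := isCompact_univ.eventually_forall_of_forall_eventually (x₀ := (0 : Z))
    (K := (Set.univ : Set Z)) (P := fun b x => |g (x + b) - g x| < ε) h2
  filter_upwards [h3] with b hb x
  exact hb x trivial

theorem cont_bound (φ : C(Z, ℝ)) : ∃ C : ℝ, ∀ z, |φ z| ≤ C := by
  refine ⟨‖φ‖, fun z => ?_⟩
  rw [← Real.norm_eq_abs]
  exact φ.norm_coe_le_norm z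

/-- family of type (i) -/
theorem L1c_cont {Y : Type} [MeasurableSpace Y] (ν : Measure Y) [IsProbabilityMeasure ν]
    (φ : C(Z, ℝ)) (C : ℝ) (hC : ∀ z, |φ z| ≤ C) (w : Y → Z) (hw : Measurable w) :
    L1c ν C fun (a : Z) (y : Y) => φ (a - w y) where
  meas a := φ.continuous.measurable.comp ((measurable_const_sub a).comp hw)
  bd a y := hC _
  cont a := by
    rw [tendsto_order]
    constructor
    · intro b hb
      exact Eventually.of_forall fun a' => hb.trans_le (integral_nonneg fun x => abs_nonneg _)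
    · intro ε hε
      have h1 := unif_transl φ (ε / 2) (by positivity)
      have h2 : Tendsto (fun a' : Z => a' - a) (𝓝 a) (𝓝 0) := by
        have h3 : Continuous fun a' : Z => a' - a := by fun_prop
        have h4 := h3.tendsto a
        rwa [sub_self] at h4
      filter_upwards [h2.eventually h1] with a' ha'
      calc ∫ y, |φ (a' - w y) - φ (a - w y)| ∂ν ≤ ∫ _, ε / 2 ∂ν := by
            have m1 : ∀ a, Measurable fun y => φ (a - w y) := fun a =>
              φ.continuous.measurable.comp ((measurable_const_sub a).comp hw)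
            refine integral_mono ?_ (integrable_const _) fun y => ?_
            · exact ((bint (m1 a') fun y => hC _).sub (bint (m1 a) fun y => hC _)).abs
            · have h5 := ha' (a - w y)
              have h6 : a - w y + (a' - a) = a' - w y := by abel
              rw [h6] at h5
              exact h5.le
        _ = ε / 2 := by simp
        _ < ε := by linarith

/-- family of type (ii) -/
theorem L1c_law (α : Z) (hα : DenseRange (fun n : ℤ => n • α)) (lam : Measure (Z × Z))
    [IsProbabilityMeasure lam] (hlam : lam.map Prod.fst = μ) (G : Z → ℝ) (hG : Measurable G)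
    (hC : ∀ z, |G z| ≤ 1) (c : Z) (m : ℤ) (hm : m ≠ 0) :
    L1c lam 1 fun (a : Z) (p : Z × Z) => G (a + c + m • p.1) where
  meas a := hG.comp (Continuous.measurable (by fun_prop))
  bd a y := hC _
  cont a := by
    have h2 : Tendsto (fun a' : Z => a' - a) (𝓝 a) (𝓝 0) := by
      have h3 : Continuous fun a' : Z => a' - a := by fun_prop
      have h4 := h3.tendsto a
      rwa [sub_self] at h4
    have h3 := ((transl μ G hG hC).comp h2).const_mul ((|m| : ℤ) : ℝ)
    rw [mul_zero] at h3
    refine tendsto_of_tendsto_of_tendsto_of_le_of_le tendsto_const_nhds h3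
      (fun a' => integral_nonneg fun y => abs_nonneg _) fun a' => ?_
    change ∫ p : Z × Z, |G (a' + c + m • p.1) - G (a + c + m • p.1)| ∂lam ≤
      ((|m| : ℤ) : ℝ) * ∫ x, |G (x + (a' - a)) - G x| ∂μ
    have m1 : Measurable fun g : Z => |G (a' + c + m • g) - G (a + c + m • g)| :=
      ((hG.comp (Continuous.measurable (by fun_prop))).sub
        (hG.comp (Continuous.measurable (by fun_prop)))).abs
    have h5 : ∫ p : Z × Z, |G (a' + c + m • p.1) - G (a + c + m • p.1)| ∂lam =
        ∫ g, |G (a' + c + m • g) - G (a + c + m • g)| ∂μ := by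
      rw [← hlam, integral_map measurable_fst.aemeasurable m1.aestronglyMeasurable]
    have h6 := law_le μ α hα m hm (fun x => |G (x + (a' - a)) - G x|)
      (((hG.comp (Continuous.measurable (by fun_prop))).sub hG).abs) (fun z => abs_nonneg _) 2
      (fun z => by
        refine (abs_sub _ _).trans ?_
        have := hC (z + (a' - a))
        have := hC z
        linarith) (a + c)
    rw [h5]
    refine le_trans (le_of_eq ?_) h6
    refine integral_congr_ae (Eventually.of_forall fun g => ?_)
    change |G (a' + c + m • g) - G (a + c + m • g)| =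
      |G (a + c + m • g + (a' - a)) - G (a + c + m • g)|
    have h7 : a + c + m • g + (a' - a) = a' + c + m • g := by abel
    rw [h7]

/-- family of type (iii) -/
theorem L1c_shift {A : Type} [TopologicalSpace A] (G : Z → ℝ) (hG : Measurable G)
    (hC : ∀ z, |G z| ≤ 1) (w : A → Z) (hw : Continuous w) :
    L1c μ 1 fun (p : A) (z : Z) => G (z + w p) where
  meas a := hG.comp (Continuous.measurable (by fun_prop))
  bd a y := hC _
  cont a := by
    have h2 : Tendsto (fun a' : A => w a' - w a) (𝓝 a) (𝓝 0) := by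
      have h3 : Continuous fun a' : A => w a' - w a := by fun_prop
      have h4 := h3.tendsto a
      rwa [sub_self] at h4
    refine ((transl μ G hG hC).comp h2).congr fun a' => ?_
    change ∫ x, |G (x + (w a' - w a)) - G x| ∂μ = ∫ z, |G (z + w a') - G (z + w a)| ∂μ
    rw [← integral_add_right_eq_self (μ := μ) (fun x => |G (x + (w a' - w a)) - G x|) (w a)]
    refine integral_congr_ae (Eventually.of_forall fun z => ?_)
    have h7 : z + w a + (w a' - w a) = z + w a' := by abel
    simp only [h7]

theorem L1c_const {A : Type} [TopologicalSpace A] (φ : C(Z, ℝ)) (C : ℝ)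
    (hC : ∀ z, |φ z| ≤ C) : L1c μ C fun (_ : A) (z : Z) => φ z where
  meas _ := φ.continuous.measurable
  bd _ y := hC _
  cont _ := by simp

/-- the shifts -/
def ww (α : Z) (κ : ℤ) (u : Z) (p : Z × Z) : Z := u + p.2 + (2 * κ) • p.1 + (κ ^ 2) • α

theorem ww_cont (α : Z) (κ : ℤ) (u : Z) : Continuous (ww α κ u) := by
  unfold ww
  fun_prop

variable {E : Type} [Fintype E] [DecidableEq E]

theorem II_cont (α : Z) (κ : E → ℤ) (u : E → Z) (φ : C(Z, ℝ)) (G : E → Z → ℝ)
    (hG : ∀ e, Measurable (G e)) (hC : ∀ e z, |G e z| ≤ 1) :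
    Continuous fun p : Z × Z => ∫ z, φ z * ∏ e, G e (z + ww α (κ e) (u e) p) ∂μ := by
  obtain ⟨C, hφ⟩ := cont_bound φ
  have h1 : L1c μ 1 fun (p : Z × Z) (z : Z) => ∏ e, G e (z + ww α (κ e) (u e) p) :=
    L1c.prod univ (fun e (p : Z × Z) (z : Z) => G e (z + ww α (κ e) (u e) p)) fun e _ =>
      L1c_shift μ (G e) (hG e) (hC e) _ (ww_cont α _ _)
  exact ((L1c_const (A := Z × Z) μ φ C hφ).mul h1).continuous

/-- the density of `V_e` -/
noncomputable def kk (lam : Measure (Z × Z)) (α : Z) (κ : E → ℤ) (u : E → Z) (φ : C(Z, ℝ))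
    (G : E → Z → ℝ) (e : E) (a : Z) : ℝ :=
  ∫ p : Z × Z, φ (a - ww α (κ e) (u e) p) * ∏ e' ∈ univ.erase e,
    G e' (a + (u e' - u e + (κ e' ^ 2 - κ e ^ 2) • α) + (2 * (κ e' - κ e)) • p.1) ∂lam

theorem kk_cont (α : Z) (hα : DenseRange (fun n : ℤ => n • α)) (lam : Measure (Z × Z))
    [IsProbabilityMeasure lam] (hlam : lam.map Prod.fst = μ) (κ : E → ℤ)
    (hκ : Function.Injective κ) (u : E → Z) (φ : C(Z, ℝ)) (G : E → Z → ℝ)
    (hG : ∀ e, Measurable (G e)) (hC : ∀ e z, |G e z| ≤ 1) (e : E) :
    Continuous (kk lam α κ u φ G e) := by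
  obtain ⟨C, hφ⟩ := cont_bound φ
  have h1 : L1c lam 1 fun (a : Z) (p : Z × Z) => ∏ e' ∈ univ.erase e,
      G e' (a + (u e' - u e + (κ e' ^ 2 - κ e ^ 2) • α) + (2 * (κ e' - κ e)) • p.1) :=
    L1c.prod (univ.erase e) (fun e' (a : Z) (p : Z × Z) =>
      G e' (a + (u e' - u e + (κ e' ^ 2 - κ e ^ 2) • α) + (2 * (κ e' - κ e)) • p.1))
      fun e' he' => L1c_law μ α hα lam hlam (G e') (hG e') (hC e') _ _ (by
        have h2 : κ e' ≠ κ e := fun h => (ne_of_mem_erase he') (hκ h)
        have h3 : κ e' - κ e ≠ 0 := sub_ne_zero.2 h2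
        exact mul_ne_zero two_ne_zero h3)
  exact ((L1c_cont lam φ C hφ _ (ww_cont α _ _).measurable).mul h1).continuous

theorem kk_swap (α : Z) (lam : Measure (Z × Z))
    [IsProbabilityMeasure lam] (κ : E → ℤ) (u : E → Z) (φ : C(Z, ℝ)) (G : E → Z → ℝ)
    (hG : ∀ e, Measurable (G e)) (hC : ∀ e z, |G e z| ≤ 1) (e : E) :
    ∫ p, (∫ z, φ z * ∏ e', G e' (z + ww α (κ e') (u e') p) ∂μ) ∂lam =
      ∫ a, G e a * kk lam α κ u φ G e a ∂μ := by
  obtain ⟨C, hφ⟩ := cont_bound φ
  have hC0 : 0 ≤ C := (abs_nonneg _).trans (hφ 0)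
  have h1 : ∀ p : Z × Z, ∫ z, φ z * ∏ e', G e' (z + ww α (κ e') (u e') p) ∂μ =
      ∫ a, G e a * (φ (a - ww α (κ e) (u e) p) * ∏ e' ∈ univ.erase e,
        G e' (a + (u e' - u e + (κ e' ^ 2 - κ e ^ 2) • α) + (2 * (κ e' - κ e)) • p.1)) ∂μ := by
    intro p
    rw [← integral_sub_right_eq_self (μ := μ)
      (fun z => φ z * ∏ e', G e' (z + ww α (κ e') (u e') p)) (ww α (κ e) (u e) p)]
    refine integral_congr_ae (Eventually.of_forall fun a => ?_)
    simp only
    rw [← mul_prod_erase univ _ (mem_univ e), sub_add_cancel]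
    have h2 : ∀ e' ∈ univ.erase e, G e' (a - ww α (κ e) (u e) p + ww α (κ e') (u e') p) =
        G e' (a + (u e' - u e + (κ e' ^ 2 - κ e ^ 2) • α) + (2 * (κ e' - κ e)) • p.1) := by
      intro e' _
      congr 1
      unfold ww
      rw [sub_smul, mul_sub, sub_smul]
      abel
    rw [prod_congr rfl h2]
    ring
  rw [integral_congr_ae (Eventually.of_forall h1), integral_integral_swap]
  · refine integral_congr_ae (Eventually.of_forall fun a => ?_)
    simp only
    rw [integral_const_mul]
    rfl
  · have m1 : Measurable fun q : (Z × Z) × Z =>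
        G e q.2 * (φ (q.2 - ww α (κ e) (u e) q.1) * ∏ e' ∈ univ.erase e,
        G e' (q.2 + (u e' - u e + (κ e' ^ 2 - κ e ^ 2) • α) + (2 * (κ e' - κ e)) • q.1.1)) := by
      refine ((hG e).comp measurable_snd).mul (Measurable.mul ?_ ?_)
      · exact (φ.continuous.comp (by
          have := ww_cont α (κ e) (u e)
          fun_prop)).measurable
      · exact Finset.measurable_prod _ fun e' _ => (hG e').comp (Continuous.measurable (by fun_prop))
    refine bint m1 (C := 1 * (C * 1)) fun q => ?_
    change |G e q.2 * (φ (q.2 - ww α (κ e) (u e) q.1) * ∏ e' ∈ univ.erase e,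
        G e' (q.2 + (u e' - u e + (κ e' ^ 2 - κ e ^ 2) • α) + (2 * (κ e' - κ e)) • q.1.1))| ≤ _
    rw [abs_mul, abs_mul, abs_prod]
    refine mul_le_mul (hC _ _) (mul_le_mul (hφ _) ?_ (prod_nonneg fun _ _ => abs_nonneg _) hC0)
      (by positivity) zero_le_one
    exact prod_le_one (fun _ _ => abs_nonneg _) fun e' _ => hC _ _

/-- positivity of an integral -/
theorem int_pos {Y : Type} [TopologicalSpace Y] [CompactSpace Y] [MeasurableSpace Y]
    [OpensMeasurableSpace Y] (ν : Measure Y) [IsProbabilityMeasure ν] (J : Y → ℝ)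
    (hJ : Continuous J) (h0 : ∀ y, 0 ≤ J y) (y0 : Y) (hy : 0 < J y0)
    (hO : ∀ O : Set Y, IsOpen O → y0 ∈ O → 0 < ν O) : 0 < ∫ y, J y ∂ν := by
  have hi : Integrable J ν :=
    hJ.integrable_of_hasCompactSupport (HasCompactSupport.of_compactSpace _)
  rw [integral_pos_iff_support_of_nonneg h0 hi]
  exact hO _ (isOpen_ne_fun hJ continuous_const) hy.ne'

theorem kk_congr (lam : Measure (Z × Z)) (α : Z) (κ : E → ℤ) (u : E → Z) (φ : C(Z, ℝ))
    (G G' : E → Z → ℝ) (e : E) (h : ∀ e', e' ≠ e → G e' = G' e') :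
    kk lam α κ u φ G e = kk lam α κ u φ G' e := by
  funext a
  unfold kk
  refine integral_congr_ae (Eventually.of_forall fun p => ?_)
  simp only
  congr 1
  exact prod_congr rfl fun e' he' => by rw [h e' (ne_of_mem_erase he')]

theorem kk_nonneg (lam : Measure (Z × Z)) (α : Z) (κ : E → ℤ) (u : E → Z) (φ : C(Z, ℝ))
    (hφ : ∀ z, 0 ≤ φ z) (G : E → Z → ℝ) (hG : ∀ e z, 0 ≤ G e z) (e : E) (a : Z) :
    0 ≤ kk lam α κ u φ G e a :=
  integral_nonneg fun p => mul_nonneg (hφ _) (prod_nonneg fun e' _ => hG _ _)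

end CL

theorem cl : S_cl := by
  intro Z _ _ _ _ _ _ _ _ μ _ _ α hα lam _ hlam E _ _ κ hκ u Ω hΩ F hF hF01 hpos φ hφ z0 p0 hz0
    hV hp0
  have hww : ∀ (e : E) (z : Z) (p : Z × Z),
      z + u e + p.2 + (2 * κ e) • p.1 + (κ e ^ 2) • α = z + ww α (κ e) (u e) p := by
    intro e z p
    unfold ww
    abel
  simp only [hww] at hV ⊢
  -- Step 3
  obtain ⟨η, hη0, hη1, hη⟩ := exists_continuous_zero_one_of_isClosed (X := Z)
    (s := Ωᶜ) (t := Set.range fun e => z0 + ww α (κ e) (u e) p0) hΩ.isClosed_compl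
    (Set.finite_range _).isClosed (by
      rw [Set.disjoint_left]
      rintro x hx ⟨e, rfl⟩
      exact hx (hV e))
  obtain ⟨G, hG⟩ : ∃ G : Finset E → E → Z → ℝ, ∀ s e z, G s e z =
      if e ∈ s then η z * F e z else η z := ⟨_, fun _ _ _ => rfl⟩
  have hGm : ∀ s e, Measurable (G s e) := by
    intro s e
    have h1 : G s e = fun z => if e ∈ s then η z * F e z else η z := funext fun z => hG s e z
    rw [h1]
    by_cases h : e ∈ s
    · simp only [h, if_true]
      exact η.continuous.measurable.mul (hF e)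
    · simp only [h, if_false]
      exact η.continuous.measurable
  have hG0 : ∀ s e z, 0 ≤ G s e z := by
    intro s e z
    rw [hG]
    have h1 := (hη z).1
    have h2 := (hF01 e z).1
    split_ifs
    · positivity
    · exact h1
  have hG1 : ∀ s e z, G s e z ≤ 1 := by
    intro s e z
    rw [hG]
    split_ifs
    · exact mul_le_one₀ (hη z).2 (hF01 e z).1 (hF01 e z).2
    · exact (hη z).2
  have hGa : ∀ s e z, |G s e z| ≤ 1 := by
    intro s e z
    rw [abs_of_nonneg (hG0 s e z)]
    exact hG1 s e z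
  have hFa : ∀ e z, |F e z| ≤ 1 := by
    intro e z
    rw [abs_of_nonneg (hF01 e z).1]
    exact (hF01 e z).2
  have hXI : ∀ s : Finset E,
      0 < ∫ p, (∫ z, φ z * ∏ e', G s e' (z + ww α (κ e') (u e') p) ∂μ) ∂lam := by
    intro s
    induction s using Finset.induction_on with
    | empty =>
      have hE : ∀ e z, G ∅ e z = η z := by
        intro e z
        rw [hG]
        simp
      simp only [hE]
      have hηa : ∀ (e : E) z, |η z| ≤ 1 := by
        intro e z
        have := hGa ∅ e z
        rwa [hE] at this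
      refine int_pos lam _ (II_cont μ α κ u φ (fun _ => η) (fun _ => η.continuous.measurable) hηa)
        (fun p => integral_nonneg fun z => mul_nonneg (hφ z)
          (prod_nonneg fun e _ => (hη _).1)) p0 ?_ hp0
      refine int_pos μ _ ?_ (fun z => mul_nonneg (hφ z) (prod_nonneg fun e _ => (hη _).1)) z0 ?_ ?_
      · exact φ.continuous.mul (continuous_finsetProd _ fun e _ => η.continuous.comp
          (by fun_prop))
      · have h1 : ∀ e : E, η (z0 + ww α (κ e) (u e) p0) = 1 := fun e => hη1 ⟨e, rfl⟩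
        simp only [h1, prod_const_one, mul_one]
        exact hz0
      · intro O hO hzO
        exact hO.measure_pos μ ⟨z0, hzO⟩
    | insert e s he ih =>
      rw [kk_swap μ α lam κ u φ (G s) (hGm s) (hGa s) e] at ih
      rw [kk_swap μ α lam κ u φ (G (insert e s)) (hGm _) (hGa _) e]
      have h1 : kk lam α κ u φ (G (insert e s)) e = kk lam α κ u φ (G s) e := by
        refine kk_congr lam α κ u φ _ _ e fun e' he' => ?_
        funext z
        rw [hG, hG]
        simp [he']
      rw [h1]
      have h2 : ∀ a, G s e a = η a := by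
        intro a
        rw [hG]
        simp [he]
      have h3 : ∀ a, G (insert e s) e a = η a * F e a := by
        intro a
        rw [hG]
        simp
      simp only [h2] at ih
      simp only [h3]
      have hkc := kk_cont μ α hα lam hlam κ hκ u φ (G s) (hGm s) (hGa s) e
      have hkn := kk_nonneg lam α κ u φ hφ (G s) (hG0 s) e
      have h4 := hpos e ⟨fun a => η a * kk lam α κ u φ (G s) e a, η.continuous.mul hkc⟩
        (fun a => mul_nonneg (hη a).1 (hkn a)) (by
          by_contra hcon
          push Not at hcon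
          have h5 : ∫ a, η a * kk lam α κ u φ (G s) e a ∂μ = 0 := by
            have h6 : ∀ a, η a * kk lam α κ u φ (G s) e a = 0 := hcon
            simp only [h6, integral_zero]
          linarith) (fun a ha => by
          change η a * kk lam α κ u φ (G s) e a = 0
          have h5 : η a = 0 := hη0 ha
          rw [h5, zero_mul])
      refine lt_of_lt_of_eq h4 (integral_congr_ae (Eventually.of_forall fun a => ?_))
      change η a * kk lam α κ u φ (G s) e a * F e a = η a * F e a * kk lam α κ u φ (G s) e a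
      ring
  have hfin := hXI univ
  have hIc := II_cont μ α κ u φ F hF hFa
  obtain ⟨I, hI⟩ : ∃ I : Z × Z → ℝ, I = fun p => ∫ z, φ z * ∏ e, F e (z + ww α (κ e) (u e) p) ∂μ :=
    ⟨_, rfl⟩
  rw [← hI] at hIc
  have hIi : Integrable I lam :=
    hIc.integrable_of_hasCompactSupport (HasCompactSupport.of_compactSpace _)
  obtain ⟨C, hφC⟩ := cont_bound φ
  have hJI : ∀ p, (∫ z, φ z * ∏ e', G univ e' (z + ww α (κ e') (u e') p) ∂μ) ≤ I p := by
    intro p
    rw [hI]
    have mm : ∀ G : E → Z → ℝ, (∀ e, Measurable (G e)) → (∀ e z, |G e z| ≤ 1) →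
        Integrable (fun z => φ z * ∏ e', G e' (z + ww α (κ e') (u e') p)) μ := by
      intro G hGm hGa
      refine bint (C := C * 1) ?_ fun z => ?_
      · exact φ.continuous.measurable.mul (Finset.measurable_prod _ fun e' _ =>
          (hGm e').comp (Continuous.measurable (by fun_prop)))
      · rw [abs_mul, abs_prod]
        exact mul_le_mul (hφC z) (prod_le_one (fun _ _ => abs_nonneg _) fun e' _ => hGa _ _)
          (prod_nonneg fun _ _ => abs_nonneg _) ((abs_nonneg _).trans (hφC z))
    refine integral_mono (mm _ (hGm _) (hGa _)) (mm _ hF hFa) fun z => ?_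
    refine mul_le_mul_of_nonneg_left (prod_le_prod (fun e _ => hG0 _ _ _) fun e _ => ?_) (hφ z)
    rw [hG]
    simp only [mem_univ, if_true]
    have h1 := (hη (z + ww α (κ e) (u e) p)).2
    have h2 := (hF01 e (z + ww α (κ e) (u e) p)).1
    nlinarith
  have hJi : Integrable (fun p => ∫ z, φ z * ∏ e', G univ e' (z + ww α (κ e') (u e') p) ∂μ) lam :=
    (II_cont μ α κ u φ (G univ) (hGm _) (hGa _)).integrable_of_hasCompactSupport
      (HasCompactSupport.of_compactSpace _)
  have hIpos : 0 < ∫ p, I p ∂lam := hfin.trans_le (integral_mono hJi hIi hJI)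
  refine ⟨{p | (∫ p, I p ∂lam) / 2 < I p}, isOpen_lt continuous_const hIc, ?_,
    (∫ p, I p ∂lam) / 2, by positivity, ?_⟩
  · rw [pos_iff_ne_zero]
    intro h0
    have h1 : ∀ᵐ p ∂lam, I p ≤ (∫ p, I p ∂lam) / 2 := by
      rw [ae_iff]
      simp only [not_le]
      exact h0
    have h2 := integral_mono_ae hIi (integrable_const _) h1
    rw [integral_const, probReal_univ, one_smul] at h2
    linarith
  · intro p hp
    have h1 : (∫ p, I p ∂lam) / 2 < I p := hp
    have h2 : I p = ∫ z, φ z * ∏ e, F e (z + ww α (κ e) (u e) p) ∂μ := by rw [hI]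
    rw [← h2]
    exact h1.le

end Pool.Agent.W880.BQ
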