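import Mathlib
import Pool.Agent.W634.BQ.Stms2

set_option autoImplicit false
open MeasureTheory Filter Topology Finset

/-!
# Project BQ, part GRP : a compact monothetic group with a prescribed countable character group
-/

namespace Pool.Agent.W880.BQ
open Pool.Agent.W634.BQ

section SW

variable {X Λ : Type} [TopologicalSpace X] [CompactSpace X] [Group Λ]

/-- the star subalgebra generated by a group of characters -/
noncomputable def chAlg (χ : Λ → C(X, ℂ)) (h4 : ∀ θ z, χ θ⁻¹ z = (starRingEnd ℂ) (χ θ z)) :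
    StarSubalgebra ℂ C(X, ℂ) where
  toSubalgebra := Algebra.adjoin ℂ (Set.range χ)
  star_mem' := by
    change Algebra.adjoin ℂ (Set.range χ) ≤ star (Algebra.adjoin ℂ (Set.range χ))
    refine Algebra.adjoin_le ?_
    rintro - ⟨n, rfl⟩
    exact Algebra.subset_adjoin ⟨n⁻¹, ContinuousMap.ext fun _ => h4 _ _⟩

theorem chAlg_coe (χ : Λ → C(X, ℂ)) (h4 : ∀ θ z, χ θ⁻¹ z = (starRingEnd ℂ) (χ θ z))
    (h1 : χ 1 = 1) (h3 : ∀ θ θ' z, χ (θ * θ') z = χ θ z * χ θ' z) :
    Subalgebra.toSubmodule (chAlg χ h4).toSubalgebra = Submodule.span ℂ (Set.range χ) := by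
  apply Algebra.adjoin_eq_span_of_subset
  refine Set.Subset.trans ?_ Submodule.subset_span
  intro x hx
  refine Submonoid.closure_induction (fun _ => id) ⟨1, h1⟩ ?_ hx
  rintro - - - - ⟨m, rfl⟩ ⟨n, rfl⟩
  refine ⟨m * n, ?_⟩
  ext1 z
  exact h3 _ _ _

theorem char_dense (χ : Λ → C(X, ℂ)) (h4 : ∀ θ z, χ θ⁻¹ z = (starRingEnd ℂ) (χ θ z))
    (h1 : χ 1 = 1) (h3 : ∀ θ θ' z, χ (θ * θ') z = χ θ z * χ θ' z)
    (hsep : ∀ x y, x ≠ y → ∃ θ, χ θ x ≠ χ θ y) (φ : C(X, ℂ)) (ε : ℝ) (hε : 0 < ε) :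
    ∃ a : Λ →₀ ℂ, ∀ z, ‖φ z - a.sum (fun θ c => c * χ θ z)‖ ≤ ε := by
  have hs : (chAlg χ h4).SeparatesPoints := by
    intro x y hxy
    obtain ⟨θ, hθ⟩ := hsep x y hxy
    exact ⟨_, ⟨χ θ, Algebra.subset_adjoin ⟨θ, rfl⟩, rfl⟩, hθ⟩
  have h5 := ContinuousMap.starSubalgebra_topologicalClosure_eq_top_of_separatesPoints _ hs
  have h6 : φ ∈ (chAlg χ h4).topologicalClosure := by
    rw [h5]
    trivial
  have h7 : φ ∈ closure ((chAlg χ h4 : Set C(X, ℂ))) := h6
  obtain ⟨g, hg, hgd⟩ := Metric.mem_closure_iff.1 h7 ε hε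
  have hg2 : g ∈ Submodule.span ℂ (Set.range χ) := by
    rw [← chAlg_coe χ h4 h1 h3]
    exact hg
  obtain ⟨a, ha⟩ := Finsupp.mem_span_range_iff_exists_finsupp.1 hg2
  refine ⟨a, fun z => ?_⟩
  have h8 : a.sum (fun θ c => c * χ θ z) = g z := by
    rw [← ha, Finsupp.sum, Finsupp.sum, ContinuousMap.sum_apply]
    rfl
  rw [h8]
  have h9 := (ContinuousMap.dist_apply_le_dist (f := φ) (g := g) z).trans hgd.le
  rwa [dist_eq_norm] at h9

end SW

section GG

/-- the generator -/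
def al (Λ : Subgroup Circle) : Λ → Additive Circle := fun θ => Additive.ofMul (θ : Circle)

/-- the compact group -/
abbrev ZZ (Λ : Subgroup Circle) : Type := ↥((AddSubgroup.zmultiples (al Λ)).topologicalClosure)

instance (Λ : Subgroup Circle) : CompactSpace (ZZ Λ) :=
  isCompact_iff_compactSpace.1
    (AddSubgroup.isClosed_topologicalClosure (AddSubgroup.zmultiples (al Λ))).isCompact

/-- the Haar measure -/
noncomputable def hm (Λ : Subgroup Circle) [MeasurableSpace (ZZ Λ)] [BorelSpace (ZZ Λ)] :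
    Measure (ZZ Λ) :=
  Measure.addHaarMeasure (⊤ : TopologicalSpace.PositiveCompacts (ZZ Λ))

theorem al_mem (Λ : Subgroup Circle) : al Λ ∈ (AddSubgroup.zmultiples (al Λ)).topologicalClosure :=
  AddSubgroup.le_topologicalClosure _ (AddSubgroup.mem_zmultiples _)

/-- the generator as an element of the group -/
def al' (Λ : Subgroup Circle) : ZZ Λ := ⟨al Λ, al_mem Λ⟩

theorem al_dense (Λ : Subgroup Circle) : DenseRange (fun n : ℤ => n • al' Λ) := by
  intro z
  have hz := z.2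
  rw [mem_closure_iff]
  intro O hO hzO
  obtain ⟨O', hO', rfl⟩ := isOpen_induced_iff.1 hO
  have h1 : (z : Λ → Additive Circle) ∈
      closure ((AddSubgroup.zmultiples (al Λ) : Set (Λ → Additive Circle))) := hz
  obtain ⟨w, hw1, hw2⟩ := mem_closure_iff.1 h1 O' hO' hzO
  obtain ⟨n, hn⟩ := AddSubgroup.mem_zmultiples_iff.1 hw2
  refine ⟨n • al' Λ, ?_, ⟨n, rfl⟩⟩
  have h2 : ((n • al' Λ : ZZ Λ) : Λ → Additive Circle) = w := by
    rw [← hn]
    rfl
  change ((n • al' Λ : ZZ Λ) : Λ → Additive Circle) ∈ O'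
  rw [h2]
  exact hw1

/-- the characters -/
noncomputable def chi (Λ : Subgroup Circle) (θ : Λ) : C(ZZ Λ, ℂ) :=
  ⟨fun z => ((Additive.toMul (z.1 θ) : Circle) : ℂ),
    continuous_subtype_val.comp (continuous_toMul.comp
      ((continuous_apply θ).comp continuous_subtype_val))⟩

theorem chi_apply (Λ : Subgroup Circle) (θ : Λ) (z : ZZ Λ) :
    chi Λ θ z = ((Additive.toMul (z.1 θ) : Circle) : ℂ) := rfl

theorem chi_gen (Λ : Subgroup Circle) (θ : Λ) (n : ℤ) :
    chi Λ θ (n • al' Λ) = ((((θ : Circle) ^ n : Circle)) : ℂ) := rfl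

instance : SecondCountableTopology (Additive Circle) :=
  inferInstanceAs (SecondCountableTopology Circle)

theorem grp : S_grp := by
  intro Λ hΛ
  have hc : Countable Λ := hΛ.to_subtype
  let i7 : MeasurableSpace (ZZ Λ) := borel _
  have i8 : BorelSpace (ZZ Λ) := ⟨rfl⟩
  have i6 : SecondCountableTopology (ZZ Λ) :=
    TopologicalSpace.Subtype.secondCountableTopology
      ((AddSubgroup.zmultiples (al Λ)).topologicalClosure : Set (Λ → Additive Circle))
  have i5 : T2Space (ZZ Λ) := inferInstance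
  have i9 : IsProbabilityMeasure (hm Λ) := ⟨by
    have h1 := Measure.addHaarMeasure_self (K₀ := (⊤ : TopologicalSpace.PositiveCompacts (ZZ Λ)))
    rwa [TopologicalSpace.PositiveCompacts.coe_top] at h1⟩
  have i10 : (hm Λ).IsAddHaarMeasure := by
    unfold hm
    infer_instance
  have c3 : ∀ (θ θ' : Λ) (z : ZZ Λ), chi Λ (θ * θ') z = chi Λ θ z * chi Λ θ' z := by
    intro θ θ' z
    have h1 : (fun z => chi Λ (θ * θ') z) = fun z => chi Λ θ z * chi Λ θ' z := by
      refine (al_dense Λ).equalizer (chi Λ (θ * θ')).continuous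
        ((chi Λ θ).continuous.mul (chi Λ θ').continuous) ?_
      funext n
      change chi Λ (θ * θ') (n • al' Λ) = chi Λ θ (n • al' Λ) * chi Λ θ' (n • al' Λ)
      rw [chi_gen, chi_gen, chi_gen, ← Circle.coe_mul, ← mul_zpow]
      rfl
    exact congrFun h1 z
  have c4 : ∀ (θ : Λ) (z : ZZ Λ), chi Λ θ⁻¹ z = (starRingEnd ℂ) (chi Λ θ z) := by
    intro θ z
    have h1 : (fun z => chi Λ θ⁻¹ z) = fun z => (starRingEnd ℂ) (chi Λ θ z) := by
      refine (al_dense Λ).equalizer (chi Λ θ⁻¹).continuous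
        (Complex.continuous_conj.comp (chi Λ θ).continuous) ?_
      funext n
      change chi Λ θ⁻¹ (n • al' Λ) = (starRingEnd ℂ) (chi Λ θ (n • al' Λ))
      rw [chi_gen, chi_gen, ← Circle.coe_inv_eq_conj, ← inv_zpow]
      rfl
    exact congrFun h1 z
  have c1 : ∀ (θ : Λ) (z w : ZZ Λ), chi Λ θ (z + w) = chi Λ θ z * chi Λ θ w := by
    intro θ z w
    rw [chi_apply, chi_apply, chi_apply, ← Circle.coe_mul]
    rfl
  have c2 : ∀ θ : Λ, chi Λ θ (al' Λ) = ((θ : Circle) : ℂ) := fun θ => rfl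
  have c0 : chi Λ 1 = 1 := by
    have h1 : (fun z => chi Λ 1 z) = fun _ => (1 : ℂ) := by
      refine (al_dense Λ).equalizer (chi Λ 1).continuous continuous_const ?_
      funext n
      change chi Λ 1 (n • al' Λ) = 1
      rw [chi_gen]
      simp
    ext z
    exact congrFun h1 z
  refine ⟨{ Z := ZZ Λ, μ := hm Λ, α := al' Λ, dense := al_dense Λ }, chi Λ,
    c1, c2, c3, c4, fun θ z => ?_, fun θ hθ => ?_, ?_⟩
  · rw [chi_apply, Circle.norm_coe]
  · change ∫ z, chi Λ θ z ∂(hm Λ) = 0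
    have h1 := integral_add_right_eq_self (μ := hm Λ) (fun z => chi Λ θ z) (al' Λ)
    have h2 : ∀ z, chi Λ θ (z + al' Λ) = ((θ : Circle) : ℂ) * chi Λ θ z := by
      intro z
      rw [c1, c2, mul_comm]
    simp only [h2] at h1
    rw [integral_const_mul] at h1
    have h3 : (((θ : Circle) : ℂ) - 1) * ∫ z, chi Λ θ z ∂(hm Λ) = 0 := by
      rw [sub_mul, one_mul, h1, sub_self]
    rcases mul_eq_zero.1 h3 with h4 | h4
    · exfalso
      apply hθ
      have h5 : ((θ : Circle) : ℂ) = ((1 : Circle) : ℂ) := by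
        rw [Circle.coe_one]
        exact sub_eq_zero.1 h4
      exact Subtype.ext (Circle.coe_injective h5)
    · exact h4
  · intro φ ε hε
    refine char_dense (chi Λ) c4 c0 c3 ?_ φ ε hε
    intro x y hxy
    by_contra hcon
    push Not at hcon
    apply hxy
    apply Subtype.ext
    funext θ
    have h1 := hcon θ
    rw [chi_apply, chi_apply] at h1
    exact Additive.toMul.injective (Circle.coe_injective h1)

end GG

end Pool.Agent.W880.BQ
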